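import Pool.Agent.H85.KP.Defs

/-!
# Koebe radius of univalent polynomials (MP_6cc408_an): module targets

Each `Target...` is a statement to be proved in its own file (`theorem xyz : TargetXYZ`).
-/

namespace Pool.Agent.H85.KP

open Polynomial Real Set

/-- The point `e^{it}`. -/
noncomputable def pt (t : ℝ) : ℂ := Complex.exp ((t : ℂ) * Complex.I)

/-- `R_N = 1/(4 cos²(π/(N+2)))`. -/
noncomputable def RN (N : ℕ) : ℝ := 1 / (4 * Real.cos (π / ((N : ℝ) + 2)) ^ 2)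

/-- Standing hypothesis of the lower bound: normalised, degree at most `N`, injective on a disc of
radius larger than one. -/
def Good (N : ℕ) (p : ℝ[X]) : Prop :=
  p.natDegree ≤ N ∧ p.coeff 0 = 0 ∧ p.coeff 1 = 1 ∧
    ∃ ρ : ℝ, 1 < ρ ∧ InjOn (ev p) (Metric.ball (0 : ℂ) ρ)

/-- Typically real on the unit circle. -/
def TR (p : ℝ[X]) : Prop := ∀ t ∈ Ioo (0 : ℝ) π, 0 ≤ (ev p (pt t)).im

/-! ### M0: typical reality -/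

/-- Strict typical reality of good polynomials. -/
def TargetTR : Prop := ∀ (N : ℕ) (p : ℝ[X]), Good N p → ∀ t ∈ Ioo (0 : ℝ) π, 0 < (ev p (pt t)).im

/-- `|N a_N| ≤ 1`. -/
def TargetLast : Prop := ∀ (N : ℕ) (p : ℝ[X]), 1 ≤ N → Good N p → |(N : ℝ) * p.coeff N| ≤ 1

/-! ### M1: quadrature (TN) -/

def TargetTN : Prop := ∀ (l : ℕ) (a τ ε : ℝ) (c : ℝ[X]), 1 ≤ l → 0 ≤ a → a ≤ 1 →
  (c.natDegree ≤ 2 * l - 1 ∨ (a = 0 ∧ c.natDegree ≤ 2 * l)) → c.coeff 0 = 0 → c.coeff 1 = 1 →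
  TR c → 0 < τ → τ < π → (∀ t ∈ Ioo 0 τ, 0 < sin ((l + 1) * t) + a * sin (l * t)) →
  0 < ε → ε < π → (∀ t ∈ Ioc 0 ε, 0 < sin ((l + 1) * t) - a * sin (l * t)) →
  0 < cos ε + cos τ →
  (sin ((l + 1) * ε) - a * sin (l * ε)) / (2 * (cos ε + cos τ)) ≤
    -(ev c (pt (π - ε))).re * (sin ((l + 1) * ε) - a * sin (l * ε))
      - (ev c (pt (π - ε))).im * (cos ((l + 1) * ε) - a * cos (l * ε))

def TargetTN2 : Prop := ∀ (l : ℕ) (a τ : ℝ) (c : ℝ[X]), 1 ≤ l → 0 ≤ a → a ≤ 1 →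
  c.natDegree ≤ 2 * l - 1 → c.coeff 0 = 0 → c.coeff 1 = 1 →
  TR c → 0 < τ → τ < π → (∀ t ∈ Ioo 0 τ, 0 < sin ((l + 1) * t) + a * sin (l * t)) →
  c.coeff 2 - a * c.coeff (2 * l - 1) ≤ 2 * cos τ

/-! ### M2: near field consequences of M1 -/

def TargetCoef2 : Prop := ∀ (N : ℕ) (p : ℝ[X]), 2 ≤ N → Good N p →
  p.coeff 2 ≤ 2 * cos (2 * π / ((N : ℝ) + 3))

def TargetNFreal : Prop := ∀ (N : ℕ) (p : ℝ[X]), 1 ≤ N → Good N p → RN N ≤ -(ev p (-1)).re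

def TargetNFeven : Prop := ∀ (N : ℕ) (p : ℝ[X]), 2 ≤ N → Even N → Good N p →
  ∀ ε, 0 < ε → ε ≤ π / ((N : ℝ) + 2) → RN N ≤ ‖ev p (pt (π - ε))‖

def TargetNFodd : Prop := ∀ (N : ℕ) (p : ℝ[X]), 7 ≤ N → Odd N → Good N p →
  ∀ ε, 0 < ε → ε ≤ π / ((N : ℝ) + 3) → RN N ≤ ‖ev p (pt (π - ε))‖

def TargetNF4 : Prop := ∀ p : ℝ[X], Good 4 p → ∀ ε, 0 < ε → ε ≤ 0.6 →
  RN 4 ≤ ‖ev p (pt (π - ε))‖

def TargetCoef25 : Prop := ∀ p : ℝ[X], Good 5 p → p.coeff 2 ≤ 1.40815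

def TargetNF5a : Prop := ∀ p : ℝ[X], Good 5 p → ∀ ε, 0 < ε → ε ≤ 0.35 →
  RN 5 ≤ ‖ev p (pt (π - ε))‖

def TargetNF5b : Prop := ∀ (p : ℝ[X]) (r β ε : ℝ), Good 5 p → 0.35 ≤ ε → ε ≤ 0.43 →
  0 ≤ β → β ≤ 0.08 → 0 < r →
  (ev p (pt (π - ε))).re = -(r * cos β) → (ev p (pt (π - ε))).im = r * sin β → RN 5 ≤ r

/-! ### M3: the new univalence inequality (A'') -/

def TargetA2 : Prop := ∀ (N : ℕ) (p : ℝ[X]) (r β ε : ℝ), Good N p → 0 < r → 0 < β → β ≤ π / 2 →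
  0 < ε → ε < π → (∀ t : ℝ, r ≤ ‖ev p (pt t)‖) →
  (ev p (pt (π - ε))).re = -(r * cos β) → (ev p (pt (π - ε))).im = r * sin β →
  r < (ev p 1).re → 1 / r * (3 * cos β - 1) / 2 ≤ p.coeff 2 + 2 * cos ε

/-! ### M4: area theorem -/

def TargetArea : Prop := ∀ (c : ℕ → ℂ) (h : ℂ → ℂ),
  (∀ z ∈ Metric.ball (0 : ℂ) 1, HasSum (fun k => c k * z ^ k) (h z)) →
  InjOn (fun z : ℂ => 1 / z + h z) (Metric.ball (0 : ℂ) 1 \ {0}) →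
  ∀ K : ℕ, ∑ k ∈ Finset.range K, (k : ℝ) * ‖c k‖ ^ 2 ≤ 1

/-! ### M5: (Ar), from the area theorem -/

def TargetAr : Prop := ∀ (p : ℝ[X]) (P Q : ℝ), p.coeff 0 = 0 → p.coeff 1 = 1 →
  InjOn (ev p) (Metric.ball (0 : ℂ) 1) → (P ≠ 0 ∨ Q ≠ 0) →
  (∀ z ∈ Metric.ball (0 : ℂ) 1, ev p z * (P + Q * Complex.I) ≠ -1) →
  ∃ r3 r5 : ℝ, ((P - p.coeff 2) / 2) ^ 2 + 3 * r3 ^ 2 + 5 * r5 ^ 2
    + Q ^ 2 / 4 * (1 + 3 * ((P - p.coeff 2) / 2) ^ 2 + 5 * (((P - p.coeff 2) / 2) ^ 2 - r3) ^ 2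
      + 7 * (((P - p.coeff 2) / 2) ^ 3 - 2 * ((P - p.coeff 2) / 2) * r3 + r5) ^ 2) ≤ 1

/-! ### M6: final inequalities of the lower bound (pure real analysis) -/

/-- Level 3 (eliminate `r3` from (Ar) and drop `r5`): used in M6. -/
def Lev3 (q β a : ℝ) : Prop :=
  ((q * cos β - a) / 2) ^ 2 + (q * sin β) ^ 2 / 4 * (1 + 3 * ((q * cos β - a) / 2) ^ 2
    + 5 * ((q * cos β - a) / 2) ^ 4 / (1 + 5 / 3 * ((q * sin β) ^ 2 / 4))) ≤ 1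

/-- General case `n = N + 2 ≥ 8`. -/
def TargetFin : Prop := ∀ (n : ℕ) (q β a ε : ℝ), 8 ≤ n → 2 + 2 * cos (2 * π / n) ≤ q →
  0 ≤ β → β ≤ π / 2 → a ≤ 2 * cos (2 * π / ((n : ℝ) + 1)) → Lev3 q β a →
  q * (3 * cos β - 1) / 2 ≤ a + 2 * cos ε →
  (Even n → cos (π / n) ≤ cos ε) ∧ (Odd n → cos (π / ((n : ℝ) + 1)) ≤ cos ε)

def TargetFin4 : Prop := ∀ (q β a ε : ℝ), 3 ≤ q → 0 ≤ β → β ≤ π / 2 →
  a ≤ 2 * cos (2 * π / 7) → Lev3 q β a → q * (3 * cos β - 1) / 2 ≤ a + 2 * cos ε →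
  cos 0.6 ≤ cos ε

def TargetFin5 : Prop := ∀ (q β a ε : ℝ), 2 + 2 * cos (2 * π / 7) ≤ q → 0 ≤ β → β ≤ π / 2 →
  a ≤ 1.40815 →
  (∃ r3 r5 : ℝ, ((q * cos β - a) / 2) ^ 2 + 3 * r3 ^ 2 + 5 * r5 ^ 2
    + (q * sin β) ^ 2 / 4 * (1 + 3 * ((q * cos β - a) / 2) ^ 2
      + 5 * (((q * cos β - a) / 2) ^ 2 - r3) ^ 2
      + 7 * (((q * cos β - a) / 2) ^ 3 - 2 * ((q * cos β - a) / 2) * r3 + r5) ^ 2) ≤ 1) →
  q * (3 * cos β - 1) / 2 ≤ a + 2 * cos ε →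
  β ≤ 0.08 ∧ cos 0.43 ≤ cos ε

/-! ### M7: degree two and three -/

def TargetSmall2 : Prop := ∀ p : ℝ[X], Good 2 p → ∀ t : ℝ, RN 2 ≤ ‖ev p (pt t)‖

def TargetSmall3 : Prop := ∀ p : ℝ[X], Good 3 p → ∀ t : ℝ, RN 3 ≤ ‖ev p (pt t)‖

/-! ### M8: the extremal polynomial, closed form on the circle -/

/-- Coefficients of the extremal polynomial (`n = N + 2`). -/
noncomputable def acoef (n : ℕ) (j : ℕ) : ℝ :=
  (1 / (n : ℝ)) * ((1 - cos (j * (2 * π / n))) / (1 - cos (2 * π / n))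
    + ((n : ℝ) - j) * sin (j * (2 * π / n)) / sin (2 * π / n))

/-- The extremal polynomial of degree `N`. -/
noncomputable def extPoly (N : ℕ) : ℝ[X] :=
  ∑ j ∈ Finset.range (N + 1), C (acoef (N + 2) j) * X ^ j

/-- `D = cos φ - cos t`. -/
noncomputable def DD (n : ℕ) (t : ℝ) : ℝ := cos (2 * π / n) - cos t

/-- `κ = ((1 - cos φ)/n) cot (t/2)`. -/
noncomputable def kap (n : ℕ) (t : ℝ) : ℝ :=
  (1 - cos (2 * π / n)) / n * (cos (t / 2) / sin (t / 2))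

/-- Closed form: `2 D² P(e^{it}) = -(D - iκ(1 - e^{int}))`. -/
def TargetU1 : Prop := ∀ N : ℕ, 3 ≤ N → ∀ t ∈ Ioo (0 : ℝ) π,
  2 * (DD (N + 2) t : ℂ) ^ 2 * ev (extPoly N) (pt t) =
    -((DD (N + 2) t : ℂ) - Complex.I * (kap (N + 2) t : ℂ) * (1 - pt (((N : ℝ) + 2) * t)))

/-- The remaining facts on the extremal polynomial. -/
def TargetU1b : Prop := ∀ N : ℕ, 3 ≤ N →
  (extPoly N).natDegree = N ∧ (extPoly N).coeff 0 = 0 ∧ (extPoly N).coeff 1 = 1 ∧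
  ev (extPoly N) (-1) = -(RN N : ℂ) ∧ ev (extPoly N) (pt (2 * π / ((N : ℝ) + 2))) ≠ 0

/-! ### M9: the monotonicity inequality -/

/-- `Re(-1/P(e^{it}))`. -/
noncomputable def RR (n : ℕ) (t : ℝ) : ℝ :=
  2 * DD n t ^ 2 * (DD n t - kap n t * sin (n * t)) /
    (DD n t ^ 2 - 2 * kap n t * DD n t * sin (n * t) + 2 * kap n t ^ 2 * (1 - cos (n * t)))

def TargetU2 : Prop := ∀ n : ℕ, 5 ≤ n →
  MonotoneOn (RR n) (Ioo 0 (2 * π / n)) ∧ MonotoneOn (RR n) (Ioo (2 * π / n) π)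

/-! ### M10: univalence criterion -/

def TargetU3 : Prop := ∀ p : ℝ[X], p.coeff 0 = 0 → p.coeff 1 = 1 → TR p →
  (∀ t ∈ Ioo (0 : ℝ) π, ev p (pt t) ≠ 0) →
  MonotoneOn (fun t => (-1 / ev p (pt t)).re) (Ioo (0 : ℝ) π) →
  InjOn (ev p) (Metric.ball (0 : ℂ) 1)

/-! ### M11: assembly -/

def TargetLower : Prop := ∀ (N : ℕ) (p : ℝ[X]), 1 ≤ N → Good N p → ∀ t : ℝ, RN N ≤ ‖ev p (pt t)‖

def TargetMain : Prop := ∀ N : ℕ, 1 ≤ N →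
  IsLeast {r : ℝ | ∃ p : ℝ[X], Adm N p ∧ r = koebeRadius p} (1 / (4 * cos (π / ((N : ℝ) + 2)) ^ 2)) ∧
  koebeRadiusClass N = 1 / (4 * cos (π / ((N : ℝ) + 2)) ^ 2)

end Pool.Agent.H85.KP
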