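import Mathlib

/-!
# A Phragmen-Lindelof lemma on the half disc, and analytic square roots on balls
-/

namespace Pool.Agent.H85.KP

open Complex Metric Set Filter Topology

/-- Analytic square roots on balls. -/
theorem exists_sqrt_ball {R : ℝ} {g : ℂ → ℂ} (hR : 0 < R) (hg : DifferentiableOn ℂ g (ball 0 R))
    (h0 : ∀ z ∈ ball (0 : ℂ) R, g z ≠ 0) (s : ℂ) (hs : s ^ 2 = g 0) :
    ∃ f : ℂ → ℂ, DifferentiableOn ℂ f (ball 0 R) ∧ (∀ z ∈ ball (0 : ℂ) R, f z ^ 2 = g z) ∧
      f 0 = s := by
  have hgd : DifferentiableOn ℂ (deriv g) (ball 0 R) := hg.deriv isOpen_ball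
  have hq : DifferentiableOn ℂ (fun z => deriv g z / g z) (ball 0 R) := hgd.div hg h0
  obtain ⟨F, hF0, hF⟩ := hq.isExactOn_ball.with_val_at 0 0
  have hFd : DifferentiableOn ℂ F (ball 0 R) :=
    fun z hz => (hF z hz).differentiableAt.differentiableWithinAt
  have key : ∀ z ∈ ball (0 : ℂ) R, g z * Complex.exp (-F z) = g 0 := by
    have hconst : ∀ z ∈ ball (0 : ℂ) R, HasDerivAt (fun z => g z * Complex.exp (-F z)) 0 z := by
      intro z hz
      have h1 : HasDerivAt g (deriv g z) z :=
        (hg.differentiableAt (isOpen_ball.mem_nhds hz)).hasDerivAt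
      have h2 := (hF z hz).neg.cexp
      have h3 := h1.mul h2
      refine h3.congr_deriv ?_
      have := h0 z hz
      field_simp
      simp
    intro z hz
    have h0m : (0 : ℂ) ∈ ball (0 : ℂ) R := mem_ball_self hR
    have := (convex_ball (0 : ℂ) R).is_const_of_fderivWithin_eq_zero (𝕜 := ℂ)
      (f := fun z => g z * Complex.exp (-F z)) (fun z hz => (hconst z hz).differentiableAt.differentiableWithinAt)
      (fun z hz => by
        have h := (hconst z hz).hasDerivWithinAt (s := ball (0:ℂ) R)
        have h' := h.hasFDerivWithinAt.fderivWithin (isOpen_ball.uniqueDiffWithinAt hz)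
        rw [h']; simp) hz h0m
    simpa [hF0] using this
  refine ⟨fun z => s * Complex.exp (F z / 2), ?_, ?_, ?_⟩
  · exact (((hFd.div_const 2).cexp).const_mul s)
  · intro z hz
    have h1 := key z hz
    have h2 : Complex.exp (F z / 2) ^ 2 = Complex.exp (F z) := by
      rw [← Complex.exp_nat_mul]; congr 1; push_cast; ring
    show (s * Complex.exp (F z / 2)) ^ 2 = g z
    rw [mul_pow, h2, hs, ← h1, mul_assoc, ← Complex.exp_add]
    simp
  · simp [hF0]

/-- The real part of `1 - z/ζ` is positive on the closed disc minus `ζ`. -/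
lemma re_one_sub_div_pos {z ζ : ℂ} (hζ : ‖ζ‖ = 1) (hz : ‖z‖ ≤ 1) (hne : z ≠ ζ) :
    0 < (1 - z / ζ).re := by
  have hζ0 : ζ ≠ 0 := by intro h; rw [h] at hζ; simp at hζ
  have h1 : ‖z / ζ‖ ≤ 1 := by rw [norm_div, hζ, div_one]; exact hz
  have h2 : (z / ζ).re ≤ 1 := (Complex.re_le_norm _).trans h1
  rcases lt_or_eq_of_le h2 with h | h
  · simp only [Complex.sub_re, Complex.one_re]; linarith
  · exfalso
    have h3 : (z / ζ).im = 0 := by
      have := Complex.sq_norm (z / ζ)
      rw [Complex.normSq_apply, h] at this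
      nlinarith [norm_nonneg (z / ζ)]
    have h4 : z / ζ = 1 := Complex.ext (by simpa using h) (by simpa using h3)
    exact hne (by field_simp at h4; exact h4)

/-- Phragmen-Lindelof on the upper half disc with one exceptional boundary point, for functions
growing at most like the inverse square root of the distance. -/
theorem pl_halfdisc (J : ℂ → ℂ) (ζ : ℂ) (hζ : ‖ζ‖ = 1) (C : ℝ)
    (hd : DifferentiableOn ℂ J (ball 0 1 ∩ {z | 0 < z.im}))
    (hc : ContinuousOn J ((closedBall 0 1 ∩ {z | 0 ≤ z.im}) \ {ζ}))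
    (hb : ∀ z ∈ (closedBall (0 : ℂ) 1 ∩ {z | 0 ≤ z.im}) \ {ζ}, ‖J z‖ * √‖1 - z / ζ‖ ≤ C)
    (harc : ∀ z, ‖z‖ = 1 → 0 ≤ z.im → z ≠ ζ → (J z).im ≤ 0)
    (hdiam : ∀ z, ‖z‖ ≤ 1 → z.im = 0 → z ≠ ζ → (J z).im ≤ 0) :
    ∀ z, ‖z‖ < 1 → 0 < z.im → (J z).im ≤ 0 := by
  set U : Set ℂ := ball 0 1 ∩ {z | 0 < z.im} with hU
  set K : Set ℂ := closedBall 0 1 ∩ {z | 0 ≤ z.im} with hK
  have hUopen : IsOpen U := isOpen_ball.inter (isOpen_lt continuous_const Complex.continuous_im)
  have hKclosed : IsClosed K :=
    isClosed_closedBall.inter (isClosed_le continuous_const Complex.continuous_im)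
  have hUK : U ⊆ K := fun z hz => ⟨ball_subset_closedBall hz.1, (le_of_lt (show 0 < z.im from hz.2) : 0 ≤ z.im)⟩
  have hclU : closure U ⊆ K := closure_minimal hUK hKclosed
  have hζU : ζ ∉ U := by
    intro h
    have := h.1
    rw [mem_ball_zero_iff, hζ] at this
    exact lt_irrefl _ this
  have hζ0 : ζ ≠ 0 := by intro h; rw [h] at hζ; simp at hζ
  -- facts on `w = 1 - z/ζ`
  have hw : ∀ z ∈ K, z ≠ ζ → 0 < (1 - z / ζ).re := fun z hz hne =>
    re_one_sub_div_pos hζ (mem_closedBall_zero_iff.1 hz.1) hne
  have hsl : ∀ z ∈ K, z ≠ ζ → (1 - z / ζ) ∈ slitPlane := fun z hz hne => Or.inl (hw z hz hne)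
  set L : ℂ → ℂ := fun z => -(3 / 4) * Complex.log (1 - z / ζ) with hL
  set W : ℂ → ℂ := fun z => Complex.exp (L z) with hW
  have hLd : ∀ z ∈ K, z ≠ ζ → DifferentiableAt ℂ L z := by
    intro z hz hne
    have h1 : DifferentiableAt ℂ (fun z : ℂ => 1 - z / ζ) z := by fun_prop
    exact (h1.clog (hsl z hz hne)).const_mul _
  have hWd : ∀ z ∈ K, z ≠ ζ → DifferentiableAt ℂ W z := fun z hz hne => (hLd z hz hne).cexp
  set c0 : ℝ := Real.cos (3 * Real.pi / 8) with hc0
  have hc0pos : 0 < c0 := by
    apply Real.cos_pos_of_mem_Ioo; constructor <;> linarith [Real.pi_pos]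
  have hWre : ∀ z ∈ K, z ≠ ζ → c0 * Real.exp (-(3 / 4) * Real.log ‖1 - z / ζ‖) ≤ (W z).re := by
    intro z hz hne
    have harg : |(1 - z / ζ).arg| ≤ Real.pi / 2 :=
      Complex.abs_arg_le_pi_div_two_iff.2 (hw z hz hne).le
    have e1 : (W z).re = Real.exp ((L z).re) * Real.cos ((L z).im) := Complex.exp_re _
    have e2 : (L z).re = -(3 / 4) * Real.log ‖1 - z / ζ‖ := by
      simp only [hL]
      rw [show (-(3 / 4) : ℂ) = ((-(3 / 4) : ℝ) : ℂ) by push_cast; ring, Complex.re_ofReal_mul,
        Complex.log_re]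
    have e3 : (L z).im = -(3 / 4) * (1 - z / ζ).arg := by
      simp only [hL]
      rw [show (-(3 / 4) : ℂ) = ((-(3 / 4) : ℝ) : ℂ) by push_cast; ring, Complex.im_ofReal_mul,
        Complex.log_im]
    rw [e1, e2, mul_comm c0]
    refine mul_le_mul_of_nonneg_left ?_ (Real.exp_pos _).le
    rw [← Real.cos_abs (L z).im]
    apply Real.cos_le_cos_of_nonneg_of_le_pi (abs_nonneg _) (by linarith [Real.pi_pos])
    rw [e3, abs_mul, abs_neg, abs_of_pos (by norm_num : (0:ℝ) < 3 / 4)]
    linarith
  have hWre0 : ∀ z ∈ K, z ≠ ζ → 0 ≤ (W z).re := fun z hz hne =>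
    le_trans (by positivity) (hWre z hz hne)
  -- the main estimate for each δ
  have main : ∀ δ : ℝ, 0 < δ → ∀ z ∈ U, (J z).im - δ * (W z).re ≤ 0 := by
    intro δ hδ
    set f : ℂ → ℂ := fun z => if z = ζ then 0 else Complex.exp (-I * J z - δ * W z) with hf
    have hnorm : ∀ z, z ≠ ζ → ‖f z‖ = Real.exp ((J z).im - δ * (W z).re) := by
      intro z hne
      simp only [hf, if_neg hne, Complex.norm_exp]
      congr 1
      simp
    have hfd : DifferentiableOn ℂ f U := by
      intro z hz
      have hne : z ≠ ζ := fun h => hζU (h ▸ hz)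
      have h1 : DifferentiableAt ℂ J z := hd.differentiableAt (hUopen.mem_nhds hz)
      have h2 : DifferentiableAt ℂ (fun z => Complex.exp (-I * J z - δ * W z)) z :=
        ((h1.const_mul _).sub ((hWd z (hUK hz) hne).const_mul _)).cexp
      have h3 : f =ᶠ[𝓝 z] fun z => Complex.exp (-I * J z - δ * W z) := by
        filter_upwards [isOpen_ne.mem_nhds hne] with y hy
        simp only [hf]; exact if_neg hy
      exact (h2.congr_of_eventuallyEq h3).differentiableWithinAt
    have hlim : Tendsto (fun y : ℝ => C * y ^ 2 - δ * (c0 * y ^ 3)) atTop atBot := by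
      have h1 : Tendsto (fun y : ℝ => C - δ * c0 * y) atTop atBot := by
        have : Tendsto (fun y : ℝ => δ * c0 * y) atTop atTop :=
          tendsto_id.const_mul_atTop (by positivity)
        exact tendsto_atBot_add_const_left _ C (tendsto_neg_atTop_atBot.comp this) |>.congr
          (fun y => by simp [sub_eq_add_neg])
      have h2 : Tendsto (fun y : ℝ => y ^ 2) atTop atTop := tendsto_pow_atTop (by norm_num)
      exact (h2.atTop_mul_atBot₀ h1).congr (fun y => by ring)
    have hfc : ContinuousOn f K := by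
      intro z hz
      by_cases hne : z = ζ
      · subst hne
        have hfz : f z = 0 := by simp [hf]
        unfold ContinuousWithinAt
        rw [hfz]
        -- y = exp(-(1/4) log ‖w‖)
        have hwt : Tendsto (fun x : ℂ => ‖1 - x / z‖) (𝓝[K \ {z}] z) (𝓝[>] 0) := by
          apply tendsto_nhdsWithin_of_tendsto_nhds_of_eventually_within
          · have : ContinuousAt (fun x : ℂ => ‖1 - x / z‖) z := by fun_prop
            have h := this.tendsto
            rw [div_self hζ0, sub_self, norm_zero] at h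
            exact h.mono_left nhdsWithin_le_nhds
          · filter_upwards [self_mem_nhdsWithin] with x hx
            have := hw x hx.1 hx.2
            exact norm_pos_iff.2 (fun h => by rw [h] at this; simp at this)
        have hyt : Tendsto (fun x : ℂ => Real.exp (-(1 / 4) * Real.log ‖1 - x / z‖))
            (𝓝[K \ {z}] z) atTop := by
          apply Real.tendsto_exp_atTop.comp
          have h1 := Real.tendsto_log_nhdsGT_zero.comp hwt
          exact h1.const_mul_atBot_of_neg (by norm_num : (-(1 / 4) : ℝ) < 0)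
        have hfin := Real.tendsto_exp_atBot.comp (hlim.comp hyt)
        have hsq : Tendsto f (𝓝[K \ {z}] z) (𝓝 0) := by
          apply squeeze_zero_norm' _ hfin
          filter_upwards [self_mem_nhdsWithin] with x hx
          rw [hnorm x hx.2]
          simp only [Function.comp_apply]
          apply Real.exp_le_exp.2
          have hwpos : 0 < ‖1 - x / z‖ := by
            have := hw x hx.1 hx.2
            exact norm_pos_iff.2 (fun h => by rw [h] at this; simp at this)
          set ℓ := Real.log ‖1 - x / z‖ with hℓ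
          have e1 : Real.exp (-(1 / 4) * ℓ) ^ 3 = Real.exp (-(3 / 4) * ℓ) := by
            rw [← Real.exp_nat_mul]; congr 1; push_cast; ring
          have e2 : Real.exp (-(1 / 4) * ℓ) ^ 2 * √‖1 - x / z‖ = 1 := by
            rw [← Real.exp_nat_mul, Real.sqrt_eq_rpow, Real.rpow_def_of_pos hwpos, ← Real.exp_add,
              ← hℓ]
            rw [show ((2 : ℕ) : ℝ) * (-(1 / 4) * ℓ) + ℓ * (1 / 2) = 0 by push_cast; ring]
            exact Real.exp_zero
          have h1 : (J x).im ≤ C * Real.exp (-(1 / 4) * ℓ) ^ 2 := by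
            have h2 := hb x hx
            have h3 : (J x).im ≤ ‖J x‖ := Complex.im_le_norm _
            have h4 : ‖J x‖ = ‖J x‖ * √‖1 - x / z‖ * Real.exp (-(1 / 4) * ℓ) ^ 2 := by
              rw [mul_assoc, mul_comm (√_), e2, mul_one]
            rw [h4] at h3
            exact h3.trans (mul_le_mul_of_nonneg_right h2 (by positivity))
          have h5 := hWre x hx.1 hx.2
          rw [← hℓ, ← e1] at h5
          have h6 := mul_le_mul_of_nonneg_left h5 hδ.le
          linarith
        have hsplit : 𝓝[K] z = 𝓝[K \ {z}] z ⊔ pure z := by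
          rw [← nhdsWithin_singleton, ← nhdsWithin_union, Set.diff_union_self,
            Set.union_eq_self_of_subset_right (by simpa using hz)]
        rw [hsplit, tendsto_sup]
        refine ⟨hsq, ?_⟩
        rw [← hfz]
        exact tendsto_pure_nhds f z
      · have h1 : ContinuousWithinAt J K z := by
          have := hc z ⟨hz, hne⟩
          have hnh : K \ {ζ} ∈ 𝓝[K] z := by
            rw [Set.diff_eq]
            exact inter_mem self_mem_nhdsWithin (mem_nhdsWithin_of_mem_nhds (isOpen_ne.mem_nhds hne))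
          exact this.mono_of_mem_nhdsWithin hnh
        have h2 : ContinuousWithinAt (fun z => Complex.exp (-I * J z - δ * W z)) K z :=
          ((continuousWithinAt_const.mul h1).sub
            (continuousWithinAt_const.mul (hWd z hz hne).continuousAt.continuousWithinAt)).cexp
        apply h2.congr_of_eventuallyEq
        · filter_upwards [mem_nhdsWithin_of_mem_nhds (isOpen_ne.mem_nhds hne)] with y hy
          simp only [hf]; exact if_neg hy
        · simp only [hf]; exact if_neg hne
    have hdc : DiffContOnCl ℂ f U := ⟨hfd, hfc.mono hclU⟩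
    have hbd : Bornology.IsBounded U := isBounded_ball.subset inter_subset_left
    have hfr : ∀ z ∈ frontier U, ‖f z‖ ≤ 1 := by
      intro z hz
      have hzK : z ∈ K := hclU hz.1
      have hzU : z ∉ U := by rw [← hUopen.interior_eq]; exact hz.2
      by_cases hne : z = ζ
      · rw [hne]; simp [hf]
      · rw [hnorm z hne, Real.exp_le_one_iff]
        have hW0 := hWre0 z hzK hne
        have hJ : (J z).im ≤ 0 := by
          have hz1 : ‖z‖ ≤ 1 := mem_closedBall_zero_iff.1 hzK.1
          have hz2 : 0 ≤ z.im := hzK.2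
          rcases lt_or_eq_of_le hz1 with h | h
          · rcases lt_or_eq_of_le hz2 with h' | h'
            · exact absurd ⟨mem_ball_zero_iff.2 h, h'⟩ hzU
            · exact hdiam z hz1 h'.symm hne
          · exact harc z h hz2 hne
        nlinarith
    intro z hz
    have hne : z ≠ ζ := fun h => hζU (h ▸ hz)
    have := Complex.norm_le_of_forall_mem_frontier_norm_le hbd hdc hfr (subset_closure hz)
    rw [hnorm z hne, Real.exp_le_one_iff] at this
    exact this
  intro z hz1 hz2
  have hzU : z ∈ U := ⟨mem_ball_zero_iff.2 hz1, hz2⟩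
  have hne : z ≠ ζ := fun h => hζU (h ▸ hzU)
  by_contra hcon
  push Not at hcon
  have hWz := hWre0 z (hUK hzU) hne
  have := main ((J z).im / (2 * ((W z).re + 1))) (by positivity) z hzU
  have h2 : (J z).im / (2 * ((W z).re + 1)) * (W z).re ≤ (J z).im / 2 := by
    rw [div_mul_eq_mul_div, div_le_div_iff₀ (by positivity) (by norm_num)]
    nlinarith
  linarith

end Pool.Agent.H85.KP
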