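import Pool.Agent.H85.KP.Basic
import Pool.Agent.H85.KP.PL
import Pool.Agent.H74.KP.M0

/-!
# The univalence inequality (A'')
-/

namespace Pool.Agent.H85.KP

open Polynomial Set Filter Topology Metric
open Complex (I)

/-- The square root with values in the closed first quadrant. -/
noncomputable def usqrt (z : ℂ) : ℂ := ⟨√((‖z‖ + z.re) / 2), √((‖z‖ - z.re) / 2)⟩

lemma usqrt_re (z : ℂ) : (usqrt z).re = √((‖z‖ + z.re) / 2) := rfl
lemma usqrt_im (z : ℂ) : (usqrt z).im = √((‖z‖ - z.re) / 2) := rfl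

lemma usqrt_aux1 (z : ℂ) : 0 ≤ (‖z‖ + z.re) / 2 := by
  have := (abs_le.1 (Complex.abs_re_le_norm z)).1
  linarith

lemma usqrt_aux2 (z : ℂ) : 0 ≤ (‖z‖ - z.re) / 2 := by
  have := (abs_le.1 (Complex.abs_re_le_norm z)).2
  linarith

lemma usqrt_mul {z : ℂ} (hz : 0 ≤ z.im) : 2 * ((usqrt z).re * (usqrt z).im) = z.im := by
  rw [usqrt_re, usqrt_im, ← Real.sqrt_mul (usqrt_aux1 z)]
  have h : (‖z‖ + z.re) / 2 * ((‖z‖ - z.re) / 2) = (z.im / 2) ^ 2 := by
    have := Complex.sq_norm z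
    rw [Complex.normSq_apply] at this
    nlinarith
  rw [h, Real.sqrt_sq (by linarith)]
  ring

lemma usqrt_sq {z : ℂ} (hz : 0 ≤ z.im) : usqrt z ^ 2 = z := by
  have h1 := usqrt_mul hz
  apply Complex.ext
  · rw [sq, Complex.mul_re, usqrt_re, usqrt_im, Real.mul_self_sqrt (usqrt_aux1 z),
      Real.mul_self_sqrt (usqrt_aux2 z)]
    ring
  · rw [sq, Complex.mul_im]
    linarith

lemma continuous_usqrt : Continuous usqrt := by
  have h1 : Continuous fun z : ℂ => √((‖z‖ + z.re) / 2) := by fun_prop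
  have h2 : Continuous fun z : ℂ => √((‖z‖ - z.re) / 2) := by fun_prop
  have h3 : usqrt = fun z : ℂ => ((√((‖z‖ + z.re) / 2) : ℝ) : ℂ) + ((√((‖z‖ - z.re) / 2) : ℝ) : ℂ) * I := by
    funext z
    apply Complex.ext <;> simp [usqrt]
  rw [h3]
  fun_prop

lemma usqrt_of_nonneg {x : ℝ} (hx : 0 ≤ x) : usqrt (x : ℂ) = (√x : ℝ) := by
  apply Complex.ext
  · rw [usqrt_re]; simp [abs_of_nonneg hx]
  · rw [usqrt_im]; simp [abs_of_nonneg hx]

lemma usqrt_of_nonpos {x : ℝ} (hx : x ≤ 0) : usqrt (x : ℂ) = (√(-x) : ℝ) * I := by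
  apply Complex.ext
  · rw [usqrt_re]; simp [abs_of_nonpos hx]
  · have e : (-x - x) / 2 = -x := by ring
    rw [usqrt_im]; simp only [Complex.norm_real, Real.norm_eq_abs, abs_of_nonpos hx, Complex.ofReal_re]
    rw [e]; simp

/-- The function `B(S) = √S √(S - k)`. -/
noncomputable def BB (k : ℝ) (s : ℂ) : ℂ := usqrt s * usqrt (s - k)

lemma continuous_BB (k : ℝ) : Continuous (BB k) := by
  unfold BB
  exact continuous_usqrt.mul (continuous_usqrt.comp (by fun_prop))

lemma BB_sq (k : ℝ) {s : ℂ} (hs : 0 ≤ s.im) : BB k s ^ 2 = s * (s - k) := by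
  unfold BB
  rw [mul_pow, usqrt_sq hs, usqrt_sq (by simpa using hs)]

lemma BB_im_ge (k : ℝ) {s : ℂ} (hs : 0 ≤ s.im) : s.im ≤ (BB k s).im := by
  have h1 := usqrt_mul hs
  have h2 : 2 * ((usqrt (s - k)).re * (usqrt (s - k)).im) = s.im := by
    have := usqrt_mul (z := s - k) (by simpa using hs)
    simpa using this
  have a1 : 0 ≤ (usqrt s).re := Real.sqrt_nonneg _
  have a2 : 0 ≤ (usqrt s).im := Real.sqrt_nonneg _
  have a3 : 0 ≤ (usqrt (s - k)).re := Real.sqrt_nonneg _
  have a4 : 0 ≤ (usqrt (s - k)).im := Real.sqrt_nonneg _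
  unfold BB
  rw [Complex.mul_im]
  set A := (usqrt s).re
  set B := (usqrt s).im
  set C := (usqrt (s - k)).re
  set D := (usqrt (s - k)).im
  have h3 : s.im ^ 2 ≤ (A * D + B * C) ^ 2 := by
    have : s.im ^ 2 = (2 * (A * B)) * (2 * (C * D)) := by rw [h1, h2]; ring
    rw [this]
    nlinarith [sq_nonneg (A * D - B * C)]
  exact (abs_le_of_sq_le_sq' h3 (by positivity)).2

/-- The denominator `z² + 2 cos ε z + 1`. -/
noncomputable def dpol (ε : ℝ) : ℝ[X] := X ^ 2 + C (2 * Real.cos ε) * X + 1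

lemma dpol_monic (ε : ℝ) : (dpol ε).Monic := by
  unfold dpol
  monicity!

lemma dpol_natDegree (ε : ℝ) : (dpol ε).natDegree = 2 := by
  unfold dpol
  compute_degree!

lemma ev_dpol (ε : ℝ) (z : ℂ) :
    ev (dpol ε) z = (z - pt (Real.pi - ε)) * (z - starRingEnd ℂ (pt (Real.pi - ε))) := by
  have h1 := pt_mul_conj (Real.pi - ε)
  have h2 : pt (Real.pi - ε) + starRingEnd ℂ (pt (Real.pi - ε)) = -(2 * (Real.cos ε : ℂ)) := by
    rw [Complex.add_conj, pt_re, Real.cos_pi_sub]; push_cast; ring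
  have h3 : ev (dpol ε) z = z ^ 2 + 2 * (Real.cos ε : ℂ) * z + 1 := by
    unfold dpol
    simp
  rw [h3, ← h1, show (2 * (Real.cos ε : ℂ)) =
    -(pt (Real.pi - ε) + starRingEnd ℂ (pt (Real.pi - ε))) by rw [h2]; ring]
  ring

/-- The numerator `1 + 2ϱ cos β p + ϱ² p²`. -/
noncomputable def npol (p : ℝ[X]) (q β : ℝ) : ℝ[X] :=
  1 + C (2 * q * Real.cos β) * p + C (q ^ 2) * p ^ 2

lemma ev_npol' (p : ℝ[X]) (q β : ℝ) (z : ℂ) :
    ev (npol p q β) z = 1 + 2 * (Real.cos β : ℂ) * (q * ev p z) + (q * ev p z) ^ 2 := by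
  unfold npol
  simp
  ring

lemma ev_npol (p : ℝ[X]) (q β : ℝ) (z : ℂ) :
    ev (npol p q β) z = (1 + q * pt β * ev p z) * (1 + q * pt (-β) * ev p z) := by
  have h1 := pt_mul_conj β
  rw [pt_conj] at h1
  have h2 : pt β + pt (-β) = 2 * (Real.cos β : ℂ) := by
    rw [← pt_conj, Complex.add_conj, pt_re]; push_cast; ring
  have h3 : ev (npol p q β) z =
      1 + 2 * q * (Real.cos β : ℂ) * ev p z + q ^ 2 * ev p z ^ 2 := by
    unfold npol
    simp
  rw [h3]
  have e : (1 + q * pt β * ev p z) * (1 + q * pt (-β) * ev p z) =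
    1 + q * (pt β + pt (-β)) * ev p z + q ^ 2 * (pt β * pt (-β)) * ev p z ^ 2 := by ring
  rw [e, h1, h2]
  ring

/-- Data for the proof of (A''). -/
structure A2Data (p : ℝ[X]) (q β ε ρ : ℝ) : Prop where
  c0 : p.coeff 0 = 0
  c1 : p.coeff 1 = 1
  hρ : 1 < ρ
  inj : InjOn (ev p) (ball (0 : ℂ) ρ)
  hq : 0 < q
  hβ0 : 0 < β
  hβ : β ≤ Real.pi / 2
  hε0 : 0 < ε
  hεπ : ε < Real.pi
  hw : q * ev p (pt (Real.pi - ε)) = -pt (-β)

section

variable {p : ℝ[X]} {q β ε ρ : ℝ}

lemma A2Data.sinε (H : A2Data p q β ε ρ) : 0 < Real.sin ε :=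
  Real.sin_pos_of_pos_of_lt_pi H.hε0 H.hεπ

lemma A2Data.sinβ (H : A2Data p q β ε ρ) : 0 < Real.sin β :=
  Real.sin_pos_of_pos_of_lt_pi H.hβ0 (by linarith [H.hβ, Real.pi_pos])

lemma A2Data.zeta_mem (H : A2Data p q β ε ρ) (t : ℝ) : pt t ∈ ball (0 : ℂ) ρ := by
  rw [mem_ball_zero_iff, norm_pt]; exact H.hρ

lemma A2Data.factor (H : A2Data p q β ε ρ) : ∃ g : ℝ[X], npol p q β = dpol ε * g := by
  set r := npol p q β %ₘ dpol ε with hr
  have h1 : r + dpol ε * (npol p q β /ₘ dpol ε) = npol p q β :=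
    modByMonic_add_div _ _
  have hdeg : r.natDegree ≤ 1 := by
    have := natDegree_modByMonic_lt (npol p q β) (dpol_monic ε) (by
      intro h
      have h2 := dpol_natDegree ε
      rw [h] at h2
      simp at h2)
    rw [dpol_natDegree, ← hr] at this
    omega
  obtain ⟨a, b, hab⟩ := Polynomial.exists_eq_X_add_C_of_natDegree_le_one hdeg
  have hz : ev r (pt (Real.pi - ε)) = 0 := by
    have h2 := congrArg (fun P => ev P (pt (Real.pi - ε))) h1
    simp only [ev_add, ev_mul] at h2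
    rw [ev_dpol, sub_self, zero_mul, zero_mul, add_zero] at h2
    rw [h2, ev_npol]
    have h3 : 1 + (q : ℂ) * pt β * ev p (pt (Real.pi - ε)) = 0 := by
      have h4 := pt_mul_conj β
      rw [pt_conj] at h4
      have : (q : ℂ) * pt β * ev p (pt (Real.pi - ε)) = pt β * (q * ev p (pt (Real.pi - ε))) := by
        ring
      rw [this, H.hw, mul_neg, h4]; ring
    rw [h3, zero_mul]
  rw [hab] at hz
  simp only [ev_add, ev_mul, ev_C, ev_X] at hz
  have him := congrArg Complex.im hz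
  simp only [Complex.add_im, Complex.im_ofReal_mul, pt_im, Complex.ofReal_im, Complex.zero_im,
    add_zero, Real.sin_pi_sub] at him
  have ha : a = 0 := by
    rcases mul_eq_zero.1 him with h | h
    · exact h
    · exact absurd h H.sinε.ne'
  rw [ha] at hz
  simp only [Complex.ofReal_zero, zero_mul, zero_add] at hz
  have hb : b = 0 := by exact_mod_cast hz
  refine ⟨npol p q β /ₘ dpol ε, ?_⟩
  rw [ha, hb] at hab
  have hr0 : r = 0 := by rw [hab]; simp
  rw [hr0, zero_add] at h1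
  exact h1.symm

lemma A2Data.g_ne_zero (H : A2Data p q β ε ρ) {g : ℝ[X]} (hg : npol p q β = dpol ε * g) :
    ∀ z ∈ ball (0 : ℂ) ρ, ev g z ≠ 0 := by
  set ζ := pt (Real.pi - ε) with hζ
  have hζm : ζ ∈ ball (0 : ℂ) ρ := H.zeta_mem _
  have hnz : ev g ζ ≠ 0 := by
    intro h0
    have h1 : ev (derivative (npol p q β)) ζ = 0 := by
      rw [hg, derivative_mul]
      simp only [ev_add, ev_mul]
      rw [h0, ev_dpol, ← hζ, sub_self]
      simp
    have h2 : ev (derivative (npol p q β)) ζ =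
        (2 * q * Real.cos β + 2 * q ^ 2 * ev p ζ) * ev (derivative p) ζ := by
      unfold npol
      simp only [derivative_add, derivative_one, derivative_mul, derivative_C, zero_mul, zero_add,
        derivative_pow, ev_add, ev_mul, ev_C, ev_pow]
      push_cast
      simp
      ring
    have h3 : ev (derivative p) ζ ≠ 0 := by
      have := Pool.Agent.H74.KP.derivative_ne_zero_of_injOn (P := p.map (algebraMap ℝ ℂ))
        (U := ball (0 : ℂ) ρ) isOpen_ball (by
          intro a ha b hb hab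
          apply H.inj ha hb
          rw [Pool.Agent.H74.KP.ev_eq_eval, Pool.Agent.H74.KP.ev_eq_eval]
          exact hab) hζm
      rwa [derivative_map, ← Pool.Agent.H74.KP.ev_eq_eval] at this
    rw [h2] at h1
    rcases mul_eq_zero.1 h1 with h | h
    · have h4 : (2 * q * Real.cos β + 2 * q ^ 2 * ev p ζ : ℂ) =
          2 * q * (Real.cos β + q * ev p ζ) := by ring
      rw [h4, H.hw] at h
      have hq := H.hq
      have h5 : (Real.cos β : ℂ) + -pt (-β) = 0 := by
        rcases mul_eq_zero.1 h with h6 | h6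
        · exfalso
          have : (2 * q : ℝ) = 0 := by exact_mod_cast h6
          linarith
        · exact h6
      have h6 := congrArg Complex.im h5
      simp only [Complex.add_im, Complex.neg_im, pt_im, Complex.ofReal_im, Real.sin_neg,
        Complex.zero_im] at h6
      linarith [H.sinβ]
    · exact h3 h
  intro z hz h0
  have h1 : ev (npol p q β) z = 0 := by rw [hg, ev_mul, h0, mul_zero]
  rw [ev_npol] at h1
  have hqc : (q : ℂ) ≠ 0 := by exact_mod_cast H.hq.ne'
  have hptc := pt_mul_conj β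
  rw [pt_conj] at hptc
  rcases mul_eq_zero.1 h1 with h | h
  · have h2 : (q : ℂ) * ev p z = -pt (-β) := by
      have : (q : ℂ) * ev p z = pt (-β) * ((1 + q * pt β * ev p z) - 1) := by
        linear_combination (-(q : ℂ) * ev p z) * hptc
      rw [this, h]; ring
    have h3 : ev p z = ev p ζ := mul_left_cancel₀ hqc (h2.trans H.hw.symm)
    have h4 := H.inj hz hζm h3
    rw [h4] at h0
    exact hnz h0
  · have h2 : (q : ℂ) * ev p z = -pt β := by
      have : (q : ℂ) * ev p z = pt β * ((1 + q * pt (-β) * ev p z) - 1) := by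
        linear_combination (-(q : ℂ) * ev p z) * hptc
      rw [this, h]; ring
    have h3 : ev p z = ev p (starRingEnd ℂ ζ) := by
      apply mul_left_cancel₀ hqc
      rw [ev_conj, h2]
      have := congrArg (starRingEnd ℂ) H.hw
      simp only [map_mul, map_neg, Complex.conj_ofReal, pt_conj, neg_neg] at this
      exact this.symm
    have hm : starRingEnd ℂ ζ ∈ ball (0 : ℂ) ρ := by
      rw [hζ, pt_conj]; exact H.zeta_mem _
    have h4 := H.inj hz hm h3
    rw [h4, ev_conj] at h0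
    exact hnz (by simpa using h0)

end

end Pool.Agent.H85.KP
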