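import Pool.Agent.H85.KP.A2

/-!
# The univalence inequality (A''): main proof
-/

namespace Pool.Agent.H85.KP

open Polynomial Set Filter Topology Metric
open Complex (I)

lemma im_eq_zero_of_sq {M : ℂ} {x : ℝ} (hx : 0 < x) (h : M ^ 2 = x) : M.im = 0 := by
  have h1 := congrArg Complex.re h
  have h2 := congrArg Complex.im h
  rw [sq, Complex.mul_re, Complex.ofReal_re] at h1
  rw [sq, Complex.mul_im, Complex.ofReal_im] at h2
  have h3 : M.re * M.im = 0 := by linarith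
  rcases mul_eq_zero.1 h3 with h4 | h4
  · rw [h4] at h1; nlinarith [mul_self_nonneg M.im]
  · exact h4

lemma csqrt_sq (w : ℂ) : Complex.sqrt w ^ 2 = w := by
  unfold Complex.sqrt
  exact_mod_cast Complex.cpow_nat_inv_pow w (n := 2) (by norm_num)

lemma norm_csqrt (w : ℂ) : ‖Complex.sqrt w‖ = √‖w‖ := by
  have h := congrArg norm (csqrt_sq w)
  rw [norm_pow] at h
  rw [← h, Real.sqrt_sq (norm_nonneg _)]

lemma im_inv_add {w : ℂ} (hw : 1 ≤ ‖w‖) (him : 0 ≤ w.im) (c : ℝ) :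
    0 ≤ (w + 1 / w + 2 * (c : ℂ)).im := by
  have h1 : (1 / w).im = -w.im / ‖w‖ ^ 2 := by
    rw [one_div, Complex.inv_im, Complex.normSq_eq_norm_sq]
  have h2 : (2 * (c : ℂ)).im = 0 := by simp
  rw [Complex.add_im, Complex.add_im, h1, h2, add_zero]
  have h3 : 1 ≤ ‖w‖ ^ 2 := by nlinarith
  have h4 : w.im / ‖w‖ ^ 2 ≤ w.im := div_le_self him h3
  rw [neg_div]
  linarith

section

variable {p : ℝ[X]} {q β ε ρ : ℝ}

lemma A2Data.npol_pos (H : A2Data p q β ε ρ) (x : ℝ) :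
    ∃ y : ℝ, 0 < y ∧ ev (npol p q β) (x : ℂ) = (y : ℂ) := by
  refine ⟨(1 + q * Real.cos β * p.eval x) ^ 2 + (q * Real.sin β * p.eval x) ^ 2, ?_, ?_⟩
  · by_cases h : p.eval x = 0
    · rw [h]; simp
    · have : 0 < (q * Real.sin β * p.eval x) ^ 2 := by
        have := H.hq; have := H.sinβ; positivity
      positivity
  · have h := Real.sin_sq_add_cos_sq β
    rw [ev_ofReal]
    congr 1
    unfold npol
    simp only [eval_add, eval_one, eval_mul, eval_C, eval_pow]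
    linear_combination (-(q ^ 2 * (p.eval x) ^ 2)) * h

lemma A2Data.ev_zero (H : A2Data p q β ε ρ) : ev p 0 = 0 := by
  rw [Pool.Agent.H85.KP.ev_zero, H.c0]; simp

lemma A2Data.divX_ne (H : A2Data p q β ε ρ) : ∀ z ∈ ball (0 : ℂ) ρ, ev p.divX z ≠ 0 := by
  intro z hz h
  by_cases hz0 : z = 0
  · rw [hz0, Pool.Agent.H85.KP.ev_zero, coeff_divX, zero_add, H.c1] at h
    simp at h
  · have h1 : ev p z = ev p 0 := by
      rw [ev_eq_mul_divX p H.c0, h, mul_zero, H.ev_zero]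
    have h0 : (0 : ℂ) ∈ ball (0 : ℂ) ρ := mem_ball_self (by linarith [H.hρ])
    exact hz0 (H.inj hz h0 h1)

lemma A2Data.ev_ne (H : A2Data p q β ε ρ) {z : ℂ} (hz : z ∈ ball (0 : ℂ) ρ) (hz0 : z ≠ 0) :
    ev p z ≠ 0 := by
  rw [ev_eq_mul_divX p H.c0]
  exact mul_ne_zero hz0 (H.divX_ne z hz)

lemma ev_dpol_pt (ε t : ℝ) : ev (dpol ε) (pt t) = 2 * pt t * ((Real.cos ε + Real.cos t : ℝ) : ℂ) := by
  have h1 := pt_mul_conj t
  have h2 : pt t + starRingEnd ℂ (pt t) = 2 * (Real.cos t : ℂ) := by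
    rw [Complex.add_conj, pt_re]; push_cast; ring
  have h3 : ev (dpol ε) (pt t) = pt t ^ 2 + 2 * (Real.cos ε : ℂ) * pt t + 1 := by
    unfold dpol
    simp
  rw [h3, Complex.ofReal_add]
  linear_combination (-1 : ℂ) * h1 + pt t * h2

/-- The final step: from `Im J ≤ 0` on the upper half disc to `Re J'(0) ≤ 0`. -/
lemma re_deriv_nonpos {J : ℂ → ℂ} {j : ℂ} (hj : HasDerivAt J j 0) (h0 : (J 0).im = 0)
    (h : ∀ z : ℂ, ‖z‖ < 1 → 0 < z.im → (J z).im ≤ 0) : j.re ≤ 0 := by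
  have h2 : HasDerivAt (fun s : ℝ => (s : ℂ) * I) I 0 := by
    have := (Complex.ofRealCLM.hasDerivAt (x := (0:ℝ))).mul_const I
    simpa using this
  have h3 : HasDerivAt (fun s : ℝ => J ((s : ℂ) * I)) (j * I) 0 := by
    apply HasDerivAt.comp_of_eq (h₂ := J) (h₂' := j) (0:ℝ)
    · simpa using hj
    · exact h2
    · simp
  have h4 : HasDerivAt (fun s : ℝ => (J ((s : ℂ) * I)).im) j.re 0 := by
    have := (Complex.imCLM.hasFDerivAt.comp_hasDerivAt (0:ℝ) h3)
    have e : Complex.imCLM (j * I) = j.re := by simp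
    rw [e] at this
    exact this
  have h5 := h4.tendsto_slope
  have h6 : Tendsto (slope (fun s : ℝ => (J ((s : ℂ) * I)).im) 0) (𝓝[>] 0) (𝓝 j.re) :=
    h5.mono_left (nhdsWithin_mono _ fun x hx => ne_of_gt hx)
  refine le_of_tendsto h6 ?_
  filter_upwards [Ioo_mem_nhdsGT (show (0:ℝ) < 1 by norm_num)] with s hs
  rw [slope_def_field]
  simp only [Complex.ofReal_zero, zero_mul, h0, sub_zero]
  apply div_nonpos_of_nonpos_of_nonneg _ hs.1.le
  apply h
  · rw [norm_mul, Complex.norm_I, mul_one, Complex.norm_real, Real.norm_eq_abs, abs_of_pos hs.1]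
    exact hs.2
  · simpa using hs.1

end

lemma re_one_sub_div_nonneg {z ζ : ℂ} (hζ : ‖ζ‖ = 1) (hz : ‖z‖ ≤ 1) : 0 ≤ (1 - z / ζ).re := by
  by_cases h : z = ζ
  · have hζ0 : ζ ≠ 0 := by intro h; rw [h] at hζ; simp at hζ
    rw [h, div_self hζ0]; simp
  · exact (re_one_sub_div_pos hζ hz h).le

/-- A function `M`, continuous on `[-1,1]`, with `M² > 0` there and `M(0) = 1`, is positive. -/
lemma pos_on_real {M : ℂ → ℂ} {F : ℝ → ℝ} (hF : ∀ x, 0 < F x)
    (hsq : ∀ x : ℝ, x ∈ Icc (-1 : ℝ) 1 → M x ^ 2 = (F x : ℂ)) (hc : ContinuousOn M (closedBall 0 1))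
    (h0 : M 0 = 1) : ∀ x : ℝ, x ∈ Icc (-1 : ℝ) 1 → 0 < (M x).re ∧ (M x).im = 0 := by
  have him : ∀ x : ℝ, x ∈ Icc (-1 : ℝ) 1 → (M x).im = 0 := fun x hx =>
    im_eq_zero_of_sq (hF x) (hsq x hx)
  have hre0 : ∀ x : ℝ, x ∈ Icc (-1 : ℝ) 1 → (M x).re ≠ 0 := by
    intro x hx h
    have h1 := hsq x hx
    have h2 : M x = 0 := Complex.ext h (him x hx)
    rw [h2] at h1
    have h3 : F x = 0 := by
      have : (0 : ℂ) = (F x : ℂ) := by simpa using h1
      exact_mod_cast this.symm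
    exact (hF x).ne' h3
  have hcr : ContinuousOn (fun x : ℝ => (M x).re) (Icc (-1) 1) := by
    apply Complex.continuous_re.comp_continuousOn
    apply hc.comp Complex.continuous_ofReal.continuousOn
    intro x hx
    rw [mem_closedBall_zero_iff, Complex.norm_real, Real.norm_eq_abs]
    exact abs_le.2 ⟨hx.1, hx.2⟩
  intro x hx
  refine ⟨?_, him x hx⟩
  by_contra hneg
  push Not at hneg
  have h01 : (0 : ℝ) ∈ Icc (-1 : ℝ) 1 := by constructor <;> norm_num
  have h00 : (0:ℝ) ≤ (M ((0:ℝ):ℂ)).re := by simp [h0]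
  obtain ⟨y, hy, hy0⟩ := isPreconnected_Icc.intermediate_value hx h01 hcr ⟨hneg, h00⟩
  exact hre0 y hy hy0

/-- Determination of the branch of `V = ±B(S)` on the two sides of `t0`. -/
lemma arc_lemma {w M : ℝ → ℂ} {c t0 : ℝ} (hc0 : 0 ≤ c) (hc1 : c ≤ 1) (ht0 : t0 ∈ Ioo 0 Real.pi)
    (hwc : ContinuousOn w (Icc 0 Real.pi)) (hMc : ContinuousOn M (Icc 0 Real.pi))
    (hw1 : ∀ t ∈ Icc 0 Real.pi, 1 ≤ ‖w t‖) (him : ∀ t ∈ Icc 0 Real.pi, 0 ≤ (w t).im)
    (hne1 : ∀ t ∈ Icc 0 Real.pi, w t ≠ 1)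
    (hM2 : ∀ t ∈ Icc 0 Real.pi, M t ^ 2 = 1 + 2 * c * w t + w t ^ 2)
    (hMne : ∀ t ∈ Icc 0 Real.pi, t ≠ t0 → M t ≠ 0)
    (h0 : (w 0).im = 0 ∧ 1 < (w 0).re ∧ (M 0).im = 0 ∧ 0 < (M 0).re)
    (hπ : (w Real.pi).im = 0 ∧ (w Real.pi).re < 0 ∧ (M Real.pi).im = 0 ∧ 0 < (M Real.pi).re) :
    (∀ t ∈ Ico 0 t0, (1 - w t) * M t / w t =
      -BB (2 + 2 * c) (w t + 1 / w t + 2 * (c : ℂ))) ∧
    (∀ t ∈ Ioc t0 Real.pi, (1 - w t) * M t / w t =
      BB (2 + 2 * c) (w t + 1 / w t + 2 * (c : ℂ))) := by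
  set S : ℝ → ℂ := fun t => w t + 1 / w t + 2 * (c : ℂ) with hS
  set V : ℝ → ℂ := fun t => (1 - w t) * M t / w t with hV
  set B : ℝ → ℂ := fun t => BB (2 + 2 * c) (S t) with hB
  have hw0 : ∀ t ∈ Icc 0 Real.pi, w t ≠ 0 := by
    intro t ht h
    have := hw1 t ht
    rw [h, norm_zero] at this
    linarith
  have hSc : ContinuousOn S (Icc 0 Real.pi) :=
    (hwc.add (continuousOn_const.div hwc hw0)).add continuousOn_const
  have hVc : ContinuousOn V (Icc 0 Real.pi) :=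
    ((continuousOn_const.sub hwc).mul hMc).div hwc hw0
  have hBc : ContinuousOn B (Icc 0 Real.pi) := (continuous_BB _).comp_continuousOn hSc
  have hSim : ∀ t ∈ Icc 0 Real.pi, 0 ≤ (S t).im := fun t ht =>
    im_inv_add (hw1 t ht) (him t ht) c
  have hSk : ∀ t ∈ Icc 0 Real.pi, S t - ((2 + 2 * c : ℝ) : ℂ) = (1 - w t) ^ 2 / w t := by
    intro t ht
    have := hw0 t ht
    simp only [hS]
    push_cast
    field_simp
    ring
  have hSM : ∀ t ∈ Icc 0 Real.pi, S t = M t ^ 2 / w t := by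
    intro t ht
    have := hw0 t ht
    rw [hM2 t ht]
    simp only [hS]
    field_simp
    ring
  have hsq : ∀ t ∈ Icc 0 Real.pi, V t ^ 2 = B t ^ 2 := by
    intro t ht
    have h1 := hw0 t ht
    simp only [hV, hB]
    rw [BB_sq _ (hSim t ht), hSk t ht, hSM t ht]
    field_simp
  have hBne : ∀ t ∈ Icc 0 Real.pi, t ≠ t0 → B t ≠ 0 := by
    intro t ht hne h
    have h1 := hsq t ht
    rw [h] at h1
    have h2 : V t = 0 := by
      have : V t ^ 2 = 0 := by rw [h1]; ring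
      exact pow_eq_zero_iff (by norm_num) |>.1 this
    simp only [hV] at h2
    rw [div_eq_zero_iff] at h2
    rcases h2 with h2 | h2
    · rcases mul_eq_zero.1 h2 with h3 | h3
      · exact hne1 t ht (sub_eq_zero.1 h3).symm
      · exact hMne t ht hne h3
    · exact hw0 t ht h2
  have hpi := Real.pi_pos
  have hm0 : (0:ℝ) ∈ Icc 0 Real.pi := ⟨le_rfl, hpi.le⟩
  have hmπ : Real.pi ∈ Icc 0 Real.pi := ⟨hpi.le, le_rfl⟩
  -- sign at 0
  have hsub1 : Ico 0 t0 ⊆ Icc 0 Real.pi := fun t ht => ⟨ht.1, (ht.2.trans ht0.2).le⟩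
  have hsub2 : Ioc t0 Real.pi ⊆ Icc 0 Real.pi := fun t ht => ⟨(ht0.1.trans ht.1).le, ht.2⟩
  constructor
  · have hor := (isPreconnected_Ico (a := (0:ℝ)) (b := t0)).eq_or_eq_neg_of_sq_eq
      (f := V) (g := B) (hVc.mono hsub1) (hBc.mono hsub1) (fun t ht => hsq t (hsub1 ht))
      (fun {t} ht => hBne t (hsub1 ht) ht.2.ne)
    rcases hor with h | h
    · exfalso
      have h1 := h (show (0:ℝ) ∈ Ico 0 t0 from ⟨le_rfl, ht0.1⟩)
      obtain ⟨a1, a2, a3, a4⟩ := h0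
      obtain ⟨x, hx⟩ : ∃ x : ℝ, w 0 = x := ⟨(w 0).re, Complex.ext (by simp) (by simpa using a1)⟩
      obtain ⟨m, hm⟩ : ∃ m : ℝ, M 0 = m := ⟨(M 0).re, Complex.ext (by simp) (by simpa using a3)⟩
      rw [hx, Complex.ofReal_re] at a2
      rw [hm, Complex.ofReal_re] at a4
      have hx0 : 0 < x := by linarith
      have hxx : 2 < x + 1 / x := by
        have : 0 < (x - 1) ^ 2 / x := by
          have : x - 1 ≠ 0 := by intro h; linarith
          positivity
        have e : (x - 1) ^ 2 / x = x + 1 / x - 2 := by field_simp; ring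
        linarith
      have e1 : V 0 = (((1 - x) * m / x : ℝ) : ℂ) := by
        simp only [hV, hx, hm]; push_cast; ring
      have e2 : B 0 = ((√(x + 1 / x + 2 * c) * √(x + 1 / x + 2 * c - (2 + 2 * c)) : ℝ) : ℂ) := by
        simp only [hB, hS, hx, BB]
        rw [show ((x : ℂ) + 1 / (x : ℂ) + 2 * (c : ℂ)) = ((x + 1 / x + 2 * c : ℝ) : ℂ) by push_cast; ring,
          ← Complex.ofReal_sub, usqrt_of_nonneg (by positivity), usqrt_of_nonneg (by linarith)]
        push_cast; ring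
      rw [e1, e2] at h1
      have h2 : (1 - x) * m / x = √(x + 1 / x + 2 * c) * √(x + 1 / x + 2 * c - (2 + 2 * c)) := by
        exact_mod_cast h1
      have h3 : (1 - x) * m / x < 0 := by
        apply div_neg_of_neg_of_pos _ hx0
        nlinarith
      have h4 : 0 ≤ √(x + 1 / x + 2 * c) * √(x + 1 / x + 2 * c - (2 + 2 * c)) := by positivity
      linarith
    · intro t ht
      exact h ht
  · have hor := (isPreconnected_Ioc (a := t0) (b := Real.pi)).eq_or_eq_neg_of_sq_eq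
      (f := V) (g := B) (hVc.mono hsub2) (hBc.mono hsub2) (fun t ht => hsq t (hsub2 ht))
      (fun {t} ht => hBne t (hsub2 ht) ht.1.ne')
    rcases hor with h | h
    · intro t ht
      exact h ht
    · exfalso
      have h1 := h (show Real.pi ∈ Ioc t0 Real.pi from ⟨ht0.2, le_rfl⟩)
      obtain ⟨a1, a2, a3, a4⟩ := hπ
      have hwn := hw1 Real.pi hmπ
      obtain ⟨x, hx⟩ : ∃ x : ℝ, w Real.pi = x :=
        ⟨(w Real.pi).re, Complex.ext (by simp) (by simpa using a1)⟩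
      obtain ⟨m, hm⟩ : ∃ m : ℝ, M Real.pi = m :=
        ⟨(M Real.pi).re, Complex.ext (by simp) (by simpa using a3)⟩
      rw [hx, Complex.ofReal_re] at a2
      rw [hm, Complex.ofReal_re] at a4
      rw [hx, Complex.norm_real, Real.norm_eq_abs, abs_of_neg a2] at hwn
      have hxx : x + 1 / x ≤ -2 := by
        have : (x + 1) ^ 2 / x ≤ 0 := div_nonpos_of_nonneg_of_nonpos (sq_nonneg _) a2.le
        have hx0 : x ≠ 0 := a2.ne
        have e : (x + 1) ^ 2 / x = x + 1 / x + 2 := by field_simp; ring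
        linarith
      have e1 : V Real.pi = (((1 - x) * m / x : ℝ) : ℂ) := by
        simp only [hV, hx, hm]; push_cast; ring
      have e2 : B Real.pi =
          ((-(√(-(x + 1 / x + 2 * c)) * √(-(x + 1 / x + 2 * c - (2 + 2 * c)))) : ℝ) : ℂ) := by
        simp only [hB, hS, hx, BB]
        rw [show ((x : ℂ) + 1 / (x : ℂ) + 2 * (c : ℂ)) = ((x + 1 / x + 2 * c : ℝ) : ℂ) by push_cast; ring,
          ← Complex.ofReal_sub, usqrt_of_nonpos (by linarith), usqrt_of_nonpos (by linarith)]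
        have := Complex.I_mul_I
        push_cast
        linear_combination (((√(-(x + 1 / x + 2 * c)) : ℝ) : ℂ) *
          ((√(-(x + 1 / x + 2 * c - (2 + 2 * c))) : ℝ) : ℂ)) * this
      rw [Pi.neg_apply, e1, e2] at h1
      have h2 : (1 - x) * m / x =
          -(-(√(-(x + 1 / x + 2 * c)) * √(-(x + 1 / x + 2 * c - (2 + 2 * c))))) := by
        exact_mod_cast h1
      have h3 : (1 - x) * m / x < 0 := by
        apply div_neg_of_pos_of_neg _ a2
        have : 0 < 1 - x := by linarith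
        positivity
      have h4 : 0 ≤ √(-(x + 1 / x + 2 * c)) * √(-(x + 1 / x + 2 * c - (2 + 2 * c))) := by positivity
      linarith

end Pool.Agent.H85.KP
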