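import Pool.Agent.H85.KP.A2b

/-!
# The univalence inequality (A''): assembly
-/

namespace Pool.Agent.H85.KP

open Polynomial Set Filter Topology Metric
open Complex (I)

theorem targetA2 : TargetA2 := by
  intro N p r β ε hG hr hβ0 hβ hε0 hεπ hmin hre him hp1
  have hTR := Pool.Agent.H74.KP.targetTR N p hG
  obtain ⟨hdeg, c0, c1, ρ, hρ, hinj⟩ := hG
  set q : ℝ := 1 / r with hqdef
  have hq : 0 < q := by positivity
  have hqr : q * r = 1 := by rw [hqdef]; field_simp
  have H : A2Data p q β ε ρ :=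
    { c0 := c0, c1 := c1, hρ := hρ, inj := hinj, hq := hq, hβ0 := hβ0, hβ := hβ, hε0 := hε0,
      hεπ := hεπ
      hw := by
        apply Complex.ext
        · rw [Complex.re_ofReal_mul, hre, Complex.neg_re, pt_re, Real.cos_neg]
          linear_combination (-(Real.cos β)) * hqr
        · rw [Complex.im_ofReal_mul, him, Complex.neg_im, pt_im, Real.sin_neg]
          linear_combination (Real.sin β) * hqr }
  obtain ⟨g, hg⟩ := H.factor
  have hgnz := H.g_ne_zero hg
  have hg0 : ev g 0 = 1 := by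
    have h1 : ev (npol p q β) 0 = 1 := by rw [ev_npol, H.ev_zero]; simp
    have h2 : ev (dpol ε) 0 = 1 := by unfold dpol; simp
    rw [hg, ev_mul, h2, one_mul] at h1; exact h1
  obtain ⟨SH, hSHd, hSHsq, hSH0⟩ := exists_sqrt_ball (R := ρ) (g := ev g) (by linarith)
    (differentiable_ev g).differentiableOn hgnz 1 (by rw [hg0]; norm_num)
  set ζ : ℂ := pt (Real.pi - ε) with hζ
  set ζ' : ℂ := starRingEnd ℂ ζ with hζ'
  have hζn : ‖ζ‖ = 1 := norm_pt _
  have hζn' : ‖ζ'‖ = 1 := by rw [hζ', Complex.norm_conj, hζn]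
  have hζim : 0 < ζ.im := by rw [hζ, pt_im, Real.sin_pi_sub]; exact H.sinε
  have hζim' : ζ'.im < 0 := by rw [hζ', Complex.conj_im]; linarith
  have hζ0 : ζ ≠ 0 := by intro h; rw [h] at hζn; simp at hζn
  have hζ0' : ζ' ≠ 0 := by intro h; rw [h] at hζn'; simp at hζn'
  have hζζ : ζ * ζ' = 1 := pt_mul_conj _
  have hρ1 : closedBall (0 : ℂ) 1 ⊆ ball 0 ρ := closedBall_subset_ball hρ
  set s0 : ℂ → ℂ := fun z => Complex.sqrt (1 - z / ζ) with hs0
  set s1 : ℂ → ℂ := fun z => Complex.sqrt (1 - z / ζ') with hs1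
  set M : ℂ → ℂ := fun z => SH z * s0 z * s1 z with hM
  set J : ℂ → ℂ := fun z => SH z * (M z + 1 - q * ev p z) / (2 * ev p.divX z * s0 z * s1 z) with hJ
  have hd : ∀ z, ev (dpol ε) z = (1 - z / ζ) * (1 - z / ζ') := by
    intro z
    rw [ev_dpol, ← hζ, ← hζ']
    field_simp
    linear_combination (z - ζ) * (z - ζ') * hζζ
  have hs0sq : ∀ z, s0 z ^ 2 = 1 - z / ζ := fun z => csqrt_sq _
  have hs1sq : ∀ z, s1 z ^ 2 = 1 - z / ζ' := fun z => csqrt_sq _
  -- nonvanishing
  have hne0 : ∀ z, z ≠ ζ → 1 - z / ζ ≠ 0 := by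
    intro z hz h
    apply hz
    field_simp at h
    linear_combination -h
  have hne1 : ∀ z, z ≠ ζ' → 1 - z / ζ' ≠ 0 := by
    intro z hz h
    apply hz
    field_simp at h
    linear_combination -h
  have hs0ne : ∀ z, z ≠ ζ → s0 z ≠ 0 := fun z hz h => hne0 z hz (by rw [← hs0sq, h]; ring)
  have hs1ne : ∀ z, z ≠ ζ' → s1 z ≠ 0 := fun z hz h => hne1 z hz (by rw [← hs1sq, h]; ring)
  have hR2 : ∀ z ∈ ball (0 : ℂ) ρ, M z ^ 2 = ev (npol p q β) z := by
    intro z hz
    have h1 : M z ^ 2 = SH z ^ 2 * s0 z ^ 2 * s1 z ^ 2 := by simp only [hM]; ring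
    rw [h1, hSHsq z hz, hs0sq, hs1sq, hg, ev_mul, hd]
    ring
  have hR1 : ∀ z ∈ ball (0 : ℂ) ρ, z ≠ ζ → z ≠ ζ' →
      J z * (2 * ev p.divX z * ev (dpol ε) z) = M z * (M z + 1 - q * ev p z) := by
    intro z hz h1 h2
    have a0 := hs0ne z h1
    have a1 := hs1ne z h2
    have a2 := H.divX_ne z hz
    rw [hd, ← hs0sq, ← hs1sq]
    simp only [hJ]
    have e : M z = SH z * s0 z * s1 z := rfl
    rw [e]
    field_simp
  -- differentiability
  have hs0d : ∀ z ∈ closedBall (0 : ℂ) 1, z ≠ ζ → DifferentiableAt ℂ s0 z := by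
    intro z hz hne
    have h1 : (1 - z / ζ) ∈ Complex.slitPlane :=
      Or.inl (re_one_sub_div_pos hζn (mem_closedBall_zero_iff.1 hz) hne)
    have h2 : DifferentiableAt ℂ (fun z : ℂ => 1 - z / ζ) z := by fun_prop
    exact (Complex.differentiableAt_sqrt h1).comp z h2
  have hs1d : ∀ z ∈ closedBall (0 : ℂ) 1, z ≠ ζ' → DifferentiableAt ℂ s1 z := by
    intro z hz hne
    have h1 : (1 - z / ζ') ∈ Complex.slitPlane :=
      Or.inl (re_one_sub_div_pos hζn' (mem_closedBall_zero_iff.1 hz) hne)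
    have h2 : DifferentiableAt ℂ (fun z : ℂ => 1 - z / ζ') z := by fun_prop
    exact (Complex.differentiableAt_sqrt h1).comp z h2
  have hSHd' : ∀ z ∈ closedBall (0 : ℂ) 1, DifferentiableAt ℂ SH z := fun z hz =>
    hSHd.differentiableAt (isOpen_ball.mem_nhds (hρ1 hz))
  have hMd : ∀ z ∈ closedBall (0 : ℂ) 1, z ≠ ζ → z ≠ ζ' → DifferentiableAt ℂ M z :=
    fun z hz h1 h2 => ((hSHd' z hz).mul (hs0d z hz h1)).mul (hs1d z hz h2)
  have hs0c : ContinuousOn s0 (closedBall 0 1) := by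
    intro z hz
    have h1 : 0 ≤ (1 - z / ζ).re := re_one_sub_div_nonneg hζn (mem_closedBall_zero_iff.1 hz)
    have h2 : ContinuousAt (fun z : ℂ => 1 - z / ζ) z := by fun_prop
    exact (ContinuousAt.comp (g := Complex.sqrt) (f := fun z : ℂ => 1 - z / ζ)
      (Complex.continuousAt_sqrt (Or.inl h1)) h2).continuousWithinAt
  have hs1c : ContinuousOn s1 (closedBall 0 1) := by
    intro z hz
    have h1 : 0 ≤ (1 - z / ζ').re := re_one_sub_div_nonneg hζn' (mem_closedBall_zero_iff.1 hz)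
    have h2 : ContinuousAt (fun z : ℂ => 1 - z / ζ') z := by fun_prop
    exact (ContinuousAt.comp (g := Complex.sqrt) (f := fun z : ℂ => 1 - z / ζ')
      (Complex.continuousAt_sqrt (Or.inl h1)) h2).continuousWithinAt
  have hSHc : ContinuousOn SH (closedBall 0 1) := fun z hz => (hSHd' z hz).continuousAt.continuousWithinAt
  have hMc : ContinuousOn M (closedBall 0 1) := (hSHc.mul hs0c).mul hs1c
  have hJd : ∀ z ∈ closedBall (0 : ℂ) 1, z ≠ ζ → z ≠ ζ' → DifferentiableAt ℂ J z := by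
    intro z hz h1 h2
    have a0 := hs0ne z h1
    have a1 := hs1ne z h2
    have a2 := H.divX_ne z (hρ1 hz)
    have d1 : DifferentiableAt ℂ (fun z => M z + 1 - q * ev p z) z :=
      ((hMd z hz h1 h2).add_const _).sub ((differentiable_ev p z).const_mul _)
    have d2 : DifferentiableAt ℂ (fun z => 2 * ev p.divX z * s0 z * s1 z) z :=
      (((differentiable_ev p.divX z).const_mul _).mul (hs0d z hz h1)).mul (hs1d z hz h2)
    exact ((hSHd' z hz).mul d1).div d2
      (mul_ne_zero (mul_ne_zero (mul_ne_zero two_ne_zero a2) a0) a1)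
  set U : Set ℂ := ball 0 1 ∩ {z | 0 < z.im} with hU
  set K : Set ℂ := closedBall 0 1 ∩ {z | 0 ≤ z.im} with hK
  have hKζ' : ∀ z ∈ K, z ≠ ζ' := by
    intro z hz h
    have h1 : 0 ≤ z.im := hz.2
    rw [h] at h1
    linarith
  have hUd : DifferentiableOn ℂ J U := by
    intro z hz
    have hz1 : z ∈ closedBall (0 : ℂ) 1 := ball_subset_closedBall hz.1
    have hzK : z ∈ K := ⟨hz1, (le_of_lt (show 0 < z.im from hz.2) : 0 ≤ z.im)⟩
    have hne : z ≠ ζ := by
      intro h
      have := mem_ball_zero_iff.1 hz.1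
      rw [h, hζn] at this
      exact lt_irrefl _ this
    exact (hJd z hz1 hne (hKζ' z hzK)).differentiableWithinAt
  have hKc : ContinuousOn J (K \ {ζ}) := fun z hz =>
    (hJd z hz.1.1 hz.2 (hKζ' z hz.1)).continuousAt.continuousWithinAt
  -- bound
  obtain ⟨Cb, hCb⟩ : ∃ C, ∀ z ∈ K, ‖SH z * (M z + 1 - q * ev p z) / (2 * ev p.divX z * s1 z)‖ ≤ C := by
    have hKcomp : IsCompact K :=
      (isCompact_closedBall (0:ℂ) 1).inter_right (isClosed_le continuous_const Complex.continuous_im)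
    have hKsub : K ⊆ closedBall 0 1 := inter_subset_left
    apply hKcomp.exists_bound_of_continuousOn
    apply ContinuousOn.div
    · exact (hSHc.mono hKsub).mul (((hMc.mono hKsub).add continuousOn_const).sub
        (continuousOn_const.mul (continuous_ev p).continuousOn))
    · exact (continuousOn_const.mul (continuous_ev _).continuousOn).mul (hs1c.mono hKsub)
    · intro z hz
      have a1 := hs1ne z (hKζ' z hz)
      have a2 := H.divX_ne z (hρ1 hz.1)
      exact mul_ne_zero (mul_ne_zero two_ne_zero a2) a1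
  have hb : ∀ z ∈ K \ {ζ}, ‖J z‖ * √‖1 - z / ζ‖ ≤ Cb := by
    intro z hz
    have h1 := hCb z hz.1
    have a0 := hs0ne z hz.2
    have e1 : √‖1 - z / ζ‖ = ‖s0 z‖ := (norm_csqrt _).symm
    rw [e1, ← norm_mul]
    have e2 : J z * s0 z = SH z * (M z + 1 - q * ev p z) / (2 * ev p.divX z * s1 z) := by
      simp only [hJ]
      have a1 := hs1ne z (hKζ' z hz.1)
      have a2 := H.divX_ne z (hρ1 hz.1.1)
      field_simp
    rw [e2]
    exact h1
  -- the real axis
  have hM0 : M 0 = 1 := by simp [hM, hs0, hs1, hSH0]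
  choose F hFpos hFeq using H.npol_pos
  have hMreal : ∀ x : ℝ, x ∈ Icc (-1 : ℝ) 1 → 0 < (M x).re ∧ (M x).im = 0 := by
    apply pos_on_real hFpos _ hMc hM0
    intro x hx
    rw [hR2 _ (hρ1 _), hFeq]
    rw [mem_closedBall_zero_iff, Complex.norm_real, Real.norm_eq_abs]
    exact abs_le.2 ⟨hx.1, hx.2⟩
  have hdiam : ∀ z, ‖z‖ ≤ 1 → z.im = 0 → z ≠ ζ → (J z).im ≤ 0 := by
    intro z hz him0 hne
    obtain ⟨x, rfl⟩ : ∃ x : ℝ, z = x := ⟨z.re, Complex.ext (by simp) (by simpa using him0)⟩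
    rw [Complex.norm_real, Real.norm_eq_abs] at hz
    have hx : x ∈ Icc (-1 : ℝ) 1 := abs_le.1 hz
    obtain ⟨m1, m2⟩ := hMreal x hx
    obtain ⟨m, hm⟩ : ∃ m : ℝ, M x = m := ⟨(M x).re, Complex.ext (by simp) (by simpa using m2)⟩
    have hxb : (x : ℂ) ∈ closedBall (0 : ℂ) 1 := by
      rw [mem_closedBall_zero_iff, Complex.norm_real, Real.norm_eq_abs]; exact hz
    have hne' : (x : ℂ) ≠ ζ' := by
      intro h
      have := congrArg Complex.im h
      rw [Complex.ofReal_im] at this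
      linarith
    have h1 := hR1 x (hρ1 hxb) hne hne'
    rw [hm, ev_ofReal, ev_ofReal, ev_ofReal] at h1
    have h2 : (2 * ((p.divX.eval x : ℝ) : ℂ) * (((dpol ε).eval x : ℝ) : ℂ)) ≠ 0 := by
      have a0 := H.divX_ne x (hρ1 hxb)
      have a1 := hd x
      rw [ev_ofReal] at a0 a1
      rw [a1]
      exact mul_ne_zero (mul_ne_zero two_ne_zero a0) (mul_ne_zero (hne0 _ hne) (hne1 _ hne'))
    have h3 : J x = ((m * (m + 1 - q * p.eval x) / (2 * p.divX.eval x * (dpol ε).eval x) : ℝ) : ℂ) := by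
      rw [eq_comm]
      push_cast
      rw [div_eq_iff h2, h1]
    rw [h3, Complex.ofReal_im]
  -- the arc
  have hP1 : ev p 1 = ((p.eval 1 : ℝ) : ℂ) := by exact_mod_cast ev_ofReal p 1
  have hPm1 : ev p (-1) = ((p.eval (-1) : ℝ) : ℂ) := by exact_mod_cast ev_ofReal p (-1)
  have hp1' : r < p.eval 1 := by rw [hP1, Complex.ofReal_re] at hp1; exact hp1
  have hneg : p.eval (-1) < 0 := by
    have hcont : ContinuousOn (fun x : ℝ => p.eval x) (Icc (-1) 1) := p.continuous.continuousOn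
    have hinjr : InjOn (fun x : ℝ => p.eval x) (Icc (-1) 1) := by
      intro a ha b hb hab
      have h1 : ev p (a : ℂ) = ev p (b : ℂ) := by
        rw [ev_ofReal, ev_ofReal]; exact_mod_cast hab
      have hm : ∀ c : ℝ, c ∈ Icc (-1 : ℝ) 1 → (c : ℂ) ∈ ball (0 : ℂ) ρ := by
        intro c hc
        rw [mem_ball_zero_iff, Complex.norm_real, Real.norm_eq_abs]
        exact (abs_le.2 ⟨hc.1, hc.2⟩).trans_lt hρ
      exact_mod_cast hinj (hm a ha) (hm b hb) h1
    have h00 : p.eval 0 = 0 := by rw [← coeff_zero_eq_eval_zero, c0]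
    rcases ContinuousOn.strictMonoOn_of_injOn_Icc' (by norm_num : (-1:ℝ) ≤ 1) hcont hinjr with h | h
    · have := h (show (-1:ℝ) ∈ Icc (-1:ℝ) 1 by constructor <;> norm_num)
        (show (0:ℝ) ∈ Icc (-1:ℝ) 1 by constructor <;> norm_num) (by norm_num)
      simpa [h00] using this
    · have := h (show (0:ℝ) ∈ Icc (-1:ℝ) 1 by constructor <;> norm_num)
        (show (1:ℝ) ∈ Icc (-1:ℝ) 1 by constructor <;> norm_num) (by norm_num)
      simp only [h00] at this
      linarith
  have hpi := Real.pi_pos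
  have hptK : ∀ t ∈ Icc 0 Real.pi, pt t ∈ K := by
    intro t ht
    refine ⟨?_, ?_⟩
    · rw [mem_closedBall_zero_iff, norm_pt]
    · show 0 ≤ (pt t).im
      rw [pt_im]; exact Real.sin_nonneg_of_nonneg_of_le_pi ht.1 ht.2
  have hptρ : ∀ t, pt t ∈ ball (0:ℂ) ρ := H.zeta_mem
  have hptne : ∀ t ∈ Icc 0 Real.pi, t ≠ Real.pi - ε → pt t ≠ ζ := by
    intro t ht hne h
    have h1 := congrArg Complex.re h
    rw [pt_re, hζ, pt_re] at h1
    exact hne (Real.injOn_cos ht ⟨by linarith, by linarith⟩ h1)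
  set w : ℝ → ℂ := fun t => q * ev p (pt t) with hw
  have hwne : ∀ t, w t ≠ 0 := by
    intro t
    exact mul_ne_zero (by exact_mod_cast hq.ne') (H.ev_ne (hptρ t) (pt_ne_zero t))
  have hwc : Continuous w := continuous_const.mul ((continuous_ev p).comp continuous_pt)
  have hw1 : ∀ t, 1 ≤ ‖w t‖ := by
    intro t
    simp only [hw]
    rw [norm_mul, Complex.norm_real, Real.norm_eq_abs, abs_of_pos hq, ← hqr]
    exact mul_le_mul_of_nonneg_left (hmin t) hq.le
  have hwpos : ∀ t ∈ Ioo 0 Real.pi, 0 < (w t).im := by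
    intro t ht
    simp only [hw]
    rw [Complex.im_ofReal_mul]
    exact mul_pos hq (hTR t ht)
  have hw0 : w 0 = ((q * p.eval 1 : ℝ) : ℂ) := by simp only [hw, pt_zero, hP1]; push_cast; ring
  have hwpi : w Real.pi = ((q * p.eval (-1) : ℝ) : ℂ) := by
    simp only [hw, pt_pi, hPm1]; push_cast; ring
  have hq1 : 1 < q * p.eval 1 := by
    have := mul_lt_mul_of_pos_left hp1' hq
    rwa [hqr] at this
  have hqm1 : q * p.eval (-1) < 0 := mul_neg_of_pos_of_neg hq hneg
  have him : ∀ t ∈ Icc 0 Real.pi, 0 ≤ (w t).im := by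
    intro t ht
    rcases eq_or_lt_of_le ht.1 with h | h
    · rw [← h, hw0, Complex.ofReal_im]
    · rcases eq_or_lt_of_le ht.2 with h' | h'
      · rw [h', hwpi, Complex.ofReal_im]
      · exact (hwpos t ⟨h, h'⟩).le
  have hwne1 : ∀ t ∈ Icc 0 Real.pi, w t ≠ 1 := by
    intro t ht h1
    rcases eq_or_lt_of_le ht.1 with h | h
    · rw [← h, hw0] at h1
      have : q * p.eval 1 = 1 := by exact_mod_cast h1
      linarith
    · rcases eq_or_lt_of_le ht.2 with h' | h'
      · rw [h', hwpi] at h1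
        have : q * p.eval (-1) = 1 := by exact_mod_cast h1
        linarith
      · have := hwpos t ⟨h, h'⟩
        rw [h1] at this
        simp at this
  have hM2 : ∀ t ∈ Icc 0 Real.pi, M (pt t) ^ 2 = 1 + 2 * (Real.cos β : ℂ) * w t + w t ^ 2 := by
    intro t ht
    rw [hR2 _ (hptρ t), ev_npol']
  have hMne : ∀ t ∈ Icc 0 Real.pi, t ≠ Real.pi - ε → M (pt t) ≠ 0 := by
    intro t ht hne
    have b0 := hs0ne _ (hptne t ht hne)
    have b1 := hs1ne _ (hKζ' _ (hptK t ht))
    have b2 : SH (pt t) ≠ 0 := by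
      intro h
      have := hSHsq _ (hptρ t)
      rw [h] at this
      exact hgnz _ (hptρ t) (by rw [← this]; ring)
    exact mul_ne_zero (mul_ne_zero b2 b0) b1
  have hMtc : ContinuousOn (fun t => M (pt t)) (Icc 0 Real.pi) :=
    hMc.comp continuous_pt.continuousOn (fun t ht => (hptK t ht).1)
  have hMr1 := hMreal 1 (by constructor <;> norm_num)
  have hMrm1 := hMreal (-1) (by constructor <;> norm_num)
  have hcosβ0 : 0 ≤ Real.cos β := Real.cos_nonneg_of_neg_pi_div_two_le_of_le (by linarith) hβ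
  have hcosβ1 : Real.cos β ≤ 1 := Real.cos_le_one β
  obtain ⟨harc1, harc2⟩ := arc_lemma (w := w) (M := fun t => M (pt t)) (c := Real.cos β)
    (t0 := Real.pi - ε) hcosβ0 hcosβ1 ⟨by linarith, by linarith⟩ hwc.continuousOn hMtc
    (fun t _ => hw1 t) him hwne1 hM2 hMne
    (by
      refine ⟨by rw [hw0, Complex.ofReal_im], by rw [hw0, Complex.ofReal_re]; exact hq1, ?_, ?_⟩
      · simp only [pt_zero]; exact_mod_cast hMr1.2
      · simp only [pt_zero]; exact_mod_cast hMr1.1)
    (by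
      refine ⟨by rw [hwpi, Complex.ofReal_im], by rw [hwpi, Complex.ofReal_re]; exact hqm1, ?_, ?_⟩
      · simp only [pt_pi]; exact_mod_cast hMrm1.2
      · simp only [pt_pi]; exact_mod_cast hMrm1.1)
  have hrel : ∀ t ∈ Icc 0 Real.pi, t ≠ Real.pi - ε →
      J (pt t) * ((4 * (Real.cos ε + Real.cos t) : ℝ) : ℂ) =
      q * ((w t + 1 / w t + 2 * (Real.cos β : ℂ)) + (1 - w t) * M (pt t) / w t) := by
    intro t ht hne
    have h1 := hR1 _ (hptρ t) (hptne t ht hne) (hKζ' _ (hptK t ht))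
    rw [ev_dpol_pt] at h1
    have h2 := ev_eq_mul_divX p c0 (pt t)
    have h3 := hM2 t ht
    have h4 := hwne t
    have h5 : w t = q * ev p (pt t) := rfl
    have hqc : (q : ℂ) ≠ 0 := by exact_mod_cast hq.ne'
    have h6 : J (pt t) * ((4 * (Real.cos ε + Real.cos t) : ℝ) : ℂ) * w t =
        q * (M (pt t) * (M (pt t) + 1 - w t)) := by
      rw [h5, h2, ← h2, ← h1, h2, Complex.ofReal_mul]
      push_cast
      ring
    have h7 : q * ((w t + 1 / w t + 2 * (Real.cos β : ℂ)) + (1 - w t) * M (pt t) / w t) * w t =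
        q * (M (pt t) * (M (pt t) + 1 - w t)) := by
      have : M (pt t) * (M (pt t) + 1 - w t) = M (pt t) ^ 2 + M (pt t) * (1 - w t) := by ring
      rw [this, h3]
      field_simp
      ring
    exact mul_right_cancel₀ h4 (h6.trans h7.symm)
  have harc : ∀ z, ‖z‖ = 1 → 0 ≤ z.im → z ≠ ζ → (J z).im ≤ 0 := by
    intro z hz hzim hne
    obtain ⟨t, ht, rfl⟩ := exists_pt_of_norm hz
    rw [pt_im] at hzim
    have ht0 : 0 ≤ t := by
      by_contra h
      push Not at h
      have := Real.sin_neg_of_neg_of_neg_pi_lt h ht.1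
      linarith
    have htI : t ∈ Icc 0 Real.pi := ⟨ht0, ht.2⟩
    have htne : t ≠ Real.pi - ε := fun h => hne (by rw [h])
    have h1 := congrArg Complex.im (hrel t htI htne)
    rw [mul_comm (J _), Complex.im_ofReal_mul, Complex.im_ofReal_mul, Complex.add_im] at h1
    have hSim : 0 ≤ (w t + 1 / w t + 2 * (Real.cos β : ℂ)).im := im_inv_add (hw1 t) (him t htI) _
    have hBim := BB_im_ge (2 + 2 * Real.cos β) hSim
    have hcm : Real.cos (Real.pi - ε) = -Real.cos ε := Real.cos_pi_sub ε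
    rcases lt_or_gt_of_ne htne with hlt | hgt
    · rw [harc1 t ⟨ht0, hlt⟩, Complex.neg_im] at h1
      have hc' : 0 < Real.cos ε + Real.cos t := by
        have := Real.cos_lt_cos_of_nonneg_of_le_pi ht0 (by linarith) hlt
        linarith
      have h2 : q * ((w t + 1 / w t + 2 * (Real.cos β : ℂ)).im +
          -(BB (2 + 2 * Real.cos β) (w t + 1 / w t + 2 * (Real.cos β : ℂ))).im) ≤ 0 :=
        mul_nonpos_of_nonneg_of_nonpos hq.le (by linarith)
      by_contra hcon
      push Not at hcon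
      have : 0 < 4 * (Real.cos ε + Real.cos t) * (J (pt t)).im := by positivity
      linarith
    · rw [harc2 t ⟨hgt, ht.2⟩] at h1
      have hc' : Real.cos ε + Real.cos t < 0 := by
        have := Real.cos_lt_cos_of_nonneg_of_le_pi (by linarith) ht.2 hgt
        linarith
      have h2 : 0 ≤ q * ((w t + 1 / w t + 2 * (Real.cos β : ℂ)).im +
          (BB (2 + 2 * Real.cos β) (w t + 1 / w t + 2 * (Real.cos β : ℂ))).im) :=
        mul_nonneg hq.le (by linarith)
      by_contra hcon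
      push Not at hcon
      have : 4 * (Real.cos ε + Real.cos t) * (J (pt t)).im < 0 :=
        mul_neg_of_neg_of_pos (by linarith) hcon
      linarith
  have hJim : ∀ z, ‖z‖ < 1 → 0 < z.im → (J z).im ≤ 0 :=
    pl_halfdisc J ζ hζn Cb hUd hKc hb harc hdiam
  -- the derivative at the origin
  have h0b : (0 : ℂ) ∈ closedBall (0 : ℂ) 1 := mem_closedBall_self (by norm_num)
  have hJd0 : HasDerivAt J (deriv J 0) 0 := (hJd 0 h0b hζ0.symm hζ0'.symm).hasDerivAt
  have hMd0 : HasDerivAt M (deriv M 0) 0 := (hMd 0 h0b hζ0.symm hζ0'.symm).hasDerivAt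
  have hP0 : HasDerivAt (ev p) 1 0 := by
    have := hasDerivAt_ev p 0
    rwa [Pool.Agent.H85.KP.ev_zero, coeff_derivative, c1,
      show ((1 * ((0:ℕ) + 1 : ℝ) : ℝ) : ℂ) = 1 by simp] at this
  have hnear : ∀ᶠ z in 𝓝 (0 : ℂ), z ∈ ball (0 : ℂ) ρ ∧ z ≠ ζ ∧ z ≠ ζ' := by
    have hρ0 : (0:ℝ) < ρ := by linarith
    have n1 : ∀ᶠ z in 𝓝 (0 : ℂ), z ∈ ball (0 : ℂ) ρ := isOpen_ball.mem_nhds (mem_ball_self hρ0)
    have n2 : ∀ᶠ z in 𝓝 (0 : ℂ), z ≠ ζ := isOpen_ne.mem_nhds hζ0.symm
    have n3 : ∀ᶠ z in 𝓝 (0 : ℂ), z ≠ ζ' := isOpen_ne.mem_nhds hζ0'.symm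
    exact n1.and (n2.and n3)
  have hm : deriv M 0 = q * Real.cos β := by
    have e1 : HasDerivAt (fun z => M z ^ 2) (2 * M 0 * deriv M 0) 0 := by
      exact (hMd0.fun_pow 2).congr_deriv (by norm_num)
    have e2 : HasDerivAt (fun z => M z ^ 2) (2 * (q : ℂ) * (Real.cos β : ℂ)) 0 := by
      have h1 : HasDerivAt (fun z : ℂ => 1 + 2 * (Real.cos β : ℂ) * (q * ev p z) + (q * ev p z) ^ 2)
          (2 * (q : ℂ) * (Real.cos β : ℂ)) 0 := by
        have a1 := hP0.const_mul (q : ℂ)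
        have a2 := (a1.const_mul (2 * (Real.cos β : ℂ))).const_add 1
        have a3 := a2.add (a1.fun_pow 2)
        refine a3.congr_deriv ?_
        rw [H.ev_zero]
        push_cast
        ring
      refine h1.congr_of_eventuallyEq ?_
      filter_upwards [hnear] with z hz
      rw [hR2 z hz.1, ev_npol']
    have e3 := e1.unique e2
    rw [hM0] at e3
    linear_combination e3 / 2
  have hdpol0 : ev (dpol ε) 0 = 1 := by unfold dpol; simp
  have hdX0 : ev p.divX 0 = 1 := by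
    rw [Pool.Agent.H85.KP.ev_zero, coeff_divX, zero_add, c1]; simp
  have hJ0 : J 0 = 1 := by
    have h1 := hR1 0 (mem_ball_self (by linarith)) hζ0.symm hζ0'.symm
    rw [hdpol0, hdX0, hM0, H.ev_zero] at h1
    linear_combination h1 / 2
  have hjval : deriv J 0 = (((3 * (q * Real.cos β) - q) / 2 - (p.coeff 2 + 2 * Real.cos ε) : ℝ) : ℂ) := by
    have b1 : HasDerivAt (ev p.divX) (p.coeff 2 : ℂ) 0 := by
      have := hasDerivAt_ev p.divX 0
      rw [Pool.Agent.H85.KP.ev_zero, coeff_derivative, coeff_divX] at this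
      simpa using this
    have b2 : HasDerivAt (ev (dpol ε)) (2 * Real.cos ε : ℂ) 0 := by
      have := hasDerivAt_ev (dpol ε) 0
      rw [Pool.Agent.H85.KP.ev_zero, coeff_derivative] at this
      have e : (dpol ε).coeff 1 = 2 * Real.cos ε := by
        unfold dpol
        simp [coeff_one]
      rw [zero_add, e] at this
      simpa using this
    have b3 := hJd0.mul ((b1.const_mul 2).mul b2)
    have b4 := hMd0.mul ((hMd0.add_const 1).sub (hP0.const_mul (q : ℂ)))
    have b5 := b3.congr_of_eventuallyEq (f₁ := fun z => M z * (M z + 1 - q * ev p z)) (by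
      filter_upwards [hnear] with z hz
      exact (hR1 z hz.1 hz.2.1 hz.2.2).symm)
    have b6 := b5.unique b4
    simp only [Pi.mul_apply, Pi.sub_apply] at b6
    rw [hm, hM0, hdX0, hdpol0, hJ0, H.ev_zero] at b6
    rw [Complex.ofReal_sub, Complex.ofReal_add, Complex.ofReal_div, Complex.ofReal_sub,
      Complex.ofReal_mul, Complex.ofReal_mul, Complex.ofReal_mul]
    push_cast
    push_cast at b6
    linear_combination b6 / 2
  have hfin := re_deriv_nonpos hJd0 (by rw [hJ0]; simp) hJim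
  rw [hjval, Complex.ofReal_re] at hfin
  have e : 1 / r * (3 * Real.cos β - 1) / 2 = (3 * (q * Real.cos β) - q) / 2 := by
    rw [← hqdef]; ring
  rw [e]
  linarith

end Pool.Agent.H85.KP
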