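import Pool.Agent.H85.KP.Iface

/-!
# Basic lemmas on `ev` and `pt`
-/

namespace Pool.Agent.H85.KP

open Polynomial Finset

variable {p q : ℝ[X]} {z : ℂ} {t : ℝ}

@[simp] lemma ev_add (p q : ℝ[X]) (z : ℂ) : ev (p + q) z = ev p z + ev q z := by simp [ev]
@[simp] lemma ev_sub (p q : ℝ[X]) (z : ℂ) : ev (p - q) z = ev p z - ev q z := by simp [ev]
@[simp] lemma ev_neg (p : ℝ[X]) (z : ℂ) : ev (-p) z = -ev p z := by simp [ev]
@[simp] lemma ev_mul (p q : ℝ[X]) (z : ℂ) : ev (p * q) z = ev p z * ev q z := by simp [ev]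
@[simp] lemma ev_pow (p : ℝ[X]) (k : ℕ) (z : ℂ) : ev (p ^ k) z = ev p z ^ k := by simp [ev]
@[simp] lemma ev_C (a : ℝ) (z : ℂ) : ev (C a) z = (a : ℂ) := by simp [ev]
@[simp] lemma ev_X (z : ℂ) : ev X z = z := by simp [ev]
@[simp] lemma ev_one (z : ℂ) : ev 1 z = 1 := by simp [ev]
@[simp] lemma ev_zero' (z : ℂ) : ev 0 z = 0 := by simp [ev]
@[simp] lemma ev_sum {ι : Type*} (s : Finset ι) (f : ι → ℝ[X]) (z : ℂ) :
    ev (∑ i ∈ s, f i) z = ∑ i ∈ s, ev (f i) z := by simp [ev]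

lemma ev_comp (p q : ℝ[X]) (z : ℂ) : ev (p.comp q) z = ev p (ev q z) := by
  simp [ev, aeval_comp]

lemma ev_eq_sum_of_le {N : ℕ} (h : p.natDegree ≤ N) (z : ℂ) :
    ev p z = ∑ k ∈ range (N + 1), (p.coeff k : ℂ) * z ^ k := by
  unfold ev
  rw [aeval_eq_sum_range' (Nat.lt_succ_of_le h)]
  simp

lemma ev_eq_sum (p : ℝ[X]) (z : ℂ) :
    ev p z = ∑ k ∈ range (p.natDegree + 1), (p.coeff k : ℂ) * z ^ k :=
  ev_eq_sum_of_le le_rfl z

lemma ev_zero (p : ℝ[X]) : ev p 0 = (p.coeff 0 : ℂ) := by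
  rw [ev_eq_sum, Finset.sum_eq_single 0]
  · simp
  · intro k _ hk; simp [hk]
  · intro h; simp at h

lemma ev_conj (p : ℝ[X]) (z : ℂ) : ev p (starRingEnd ℂ z) = starRingEnd ℂ (ev p z) := by
  rw [ev_eq_sum, ev_eq_sum, map_sum]
  refine Finset.sum_congr rfl fun k _ => ?_
  simp

lemma ev_ofReal (p : ℝ[X]) (x : ℝ) : ev p (x : ℂ) = ((p.eval x : ℝ) : ℂ) := by
  rw [ev_eq_sum, eval_eq_sum_range]
  push_cast
  rfl

lemma hasDerivAt_ev (p : ℝ[X]) (z : ℂ) : HasDerivAt (ev p) (ev (derivative p) z) z := by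
  have h := (p.map (algebraMap ℝ ℂ)).hasDerivAt z
  have e1 : (fun x => eval x (p.map (algebraMap ℝ ℂ))) = ev p := by
    funext x; rw [eval_map_algebraMap]; rfl
  have e2 : eval z (derivative (p.map (algebraMap ℝ ℂ))) = ev (derivative p) z := by
    rw [derivative_map, eval_map_algebraMap]; rfl
  rw [e1, e2] at h
  exact h

lemma differentiable_ev (p : ℝ[X]) : Differentiable ℂ (ev p) := fun z =>
  (hasDerivAt_ev p z).differentiableAt

lemma continuous_ev (p : ℝ[X]) : Continuous (ev p) := (differentiable_ev p).continuous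

lemma deriv_ev (p : ℝ[X]) (z : ℂ) : deriv (ev p) z = ev (derivative p) z :=
  (hasDerivAt_ev p z).deriv

lemma ev_eq_mul_divX (p : ℝ[X]) (h : p.coeff 0 = 0) (z : ℂ) : ev p z = z * ev p.divX z := by
  conv_lhs => rw [← divX_mul_X_add p]
  simp [h, mul_comm]

/-! ### The points `pt t` -/

lemma pt_eq (t : ℝ) : pt t = (Real.cos t : ℂ) + (Real.sin t : ℂ) * Complex.I := by
  unfold pt
  rw [Complex.exp_mul_I]
  simp

@[simp] lemma pt_re (t : ℝ) : (pt t).re = Real.cos t := by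
  rw [pt_eq]; simp only [Complex.add_re, Complex.add_im, Complex.mul_re, Complex.mul_im, Complex.ofReal_re, Complex.ofReal_im, Complex.I_re, Complex.I_im]; ring

@[simp] lemma pt_im (t : ℝ) : (pt t).im = Real.sin t := by
  rw [pt_eq]; simp only [Complex.add_re, Complex.add_im, Complex.mul_re, Complex.mul_im, Complex.ofReal_re, Complex.ofReal_im, Complex.I_re, Complex.I_im]; ring

@[simp] lemma norm_pt (t : ℝ) : ‖pt t‖ = 1 := by
  unfold pt; exact Complex.norm_exp_ofReal_mul_I t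

lemma pt_ne_zero (t : ℝ) : pt t ≠ 0 := by
  intro h; have := norm_pt t; rw [h] at this; simp at this

lemma continuous_pt : Continuous pt := by unfold pt; fun_prop

@[simp] lemma pt_zero : pt 0 = 1 := by simp [pt]

@[simp] lemma pt_pi : pt Real.pi = -1 := by simp [pt]

lemma pt_add (s t : ℝ) : pt (s + t) = pt s * pt t := by
  unfold pt; rw [← Complex.exp_add]; push_cast; ring_nf

lemma pt_pow (t : ℝ) (k : ℕ) : pt t ^ k = pt (k * t) := by
  unfold pt; rw [← Complex.exp_nat_mul]; push_cast; ring_nf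

lemma pt_conj (t : ℝ) : starRingEnd ℂ (pt t) = pt (-t) := by
  apply Complex.ext <;> simp

lemma pt_mul_conj (t : ℝ) : pt t * starRingEnd ℂ (pt t) = 1 := by
  rw [Complex.mul_conj, Complex.normSq_eq_norm_sq, norm_pt]; simp

/-- every point of the unit circle is a `pt t` -/
lemma exists_pt_of_norm {z : ℂ} (h : ‖z‖ = 1) : ∃ t : ℝ, t ∈ Set.Ioc (-Real.pi) Real.pi ∧ pt t = z := by
  refine ⟨z.arg, ⟨Complex.neg_pi_lt_arg z, Complex.arg_le_pi z⟩, ?_⟩
  have := Complex.norm_mul_exp_arg_mul_I z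
  rw [h] at this
  simpa [pt] using this

lemma ev_pt_re_of_le {N : ℕ} (h : p.natDegree ≤ N) (t : ℝ) :
    (ev p (pt t)).re = ∑ k ∈ range (N + 1), p.coeff k * Real.cos (k * t) := by
  rw [ev_eq_sum_of_le h, Complex.re_sum]
  refine Finset.sum_congr rfl fun k _ => ?_
  rw [pt_pow, Complex.re_ofReal_mul, pt_re]

lemma ev_pt_im_of_le {N : ℕ} (h : p.natDegree ≤ N) (t : ℝ) :
    (ev p (pt t)).im = ∑ k ∈ range (N + 1), p.coeff k * Real.sin (k * t) := by
  rw [ev_eq_sum_of_le h, Complex.im_sum]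
  refine Finset.sum_congr rfl fun k _ => ?_
  rw [pt_pow, Complex.im_ofReal_mul, pt_im]

end Pool.Agent.H85.KP
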