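import Mathlib

/-!
# Koebe radius of univalent polynomials with real coefficients: definitions

Definitions only (problem MP_6cc408_an).
-/

namespace Pool.Agent.H85.KP

open Polynomial

/-- The value of the real polynomial `p` at the complex number `z`. -/
noncomputable def ev (p : ℝ[X]) (z : ℂ) : ℂ := aeval z p

/-- `Adm N p`: the real polynomial `p` is `z + a₂ z² + ⋯ + a_N z^N` with `a_N ≠ 0`
(for `N = 1`: `p = z`), and it is injective (univalent) on the open unit disc. -/
structure Adm (N : ℕ) (p : ℝ[X]) : Prop where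
  natDegree_eq : p.natDegree = N
  coeff_zero : p.coeff 0 = 0
  coeff_one : p.coeff 1 = 1
  inj : Set.InjOn (ev p) (Metric.ball (0 : ℂ) 1)

/-- The Koebe radius `dist (0, ∂ p(𝔻))` of `p`. -/
noncomputable def koebeRadius (p : ℝ[X]) : ℝ :=
  Metric.infDist (0 : ℂ) (frontier (ev p '' Metric.ball (0 : ℂ) 1))

/-- The Koebe radius `R_N` of the class of admissible polynomials of degree `N`. -/
noncomputable def koebeRadiusClass (N : ℕ) : ℝ :=
  sInf {r : ℝ | ∃ p : ℝ[X], Adm N p ∧ r = koebeRadius p}

end Pool.Agent.H85.KP
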