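import Pool.Agent.H85.KP.Upper

/-!
# Final form: the ball of radius `R_N` is contained in every image
-/

namespace Pool.Agent.H85.KP

open Polynomial Set Filter Topology Metric
open Complex (I)

lemma ball_subset_image {N : ℕ} {p : ℝ[X]} (h : Adm N p) {R : ℝ}
    (hR : ∀ z : ℂ, ‖z‖ = 1 → R ≤ ‖ev p z‖) : ball (0 : ℂ) R ⊆ ev p '' ball 0 1 := by
  rcases le_or_gt R 0 with hR0 | hR0
  · rw [ball_eq_empty.2 hR0]; exact empty_subset _
  have h0 : (0 : ℂ) ∈ ev p '' ball 0 1 := by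
    refine ⟨0, mem_ball_self one_pos, ?_⟩
    rw [ev_zero, h.coeff_zero]
    simp
  have hpre : IsPreconnected (ball (0 : ℂ) R) := (convex_ball 0 R).isPreconnected
  have hopen := isOpen_image h one_pos le_rfl
  refine hpre.subset_left_of_subset_union hopen
    (isClosed_closure (s := ev p '' ball 0 1)).isOpen_compl ?_ ?_ ⟨0, mem_ball_self hR0, h0⟩
  · exact disjoint_left.2 fun y hy hy' => hy' (subset_closure hy)
  · intro y hy
    by_cases hyc : y ∈ closure (ev p '' ball 0 1)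
    · left
      by_contra hyn
      have hyf : y ∈ frontier (ev p '' ball 0 1) := ⟨hyc, by rwa [hopen.interior_eq]⟩
      obtain ⟨z, hz, hzy⟩ := frontier_subset h hyf
      have := hR z hz
      rw [hzy] at this
      rw [mem_ball_zero_iff] at hy
      linarith
    · exact Or.inr hyc

theorem main_of_U2' (hU2 : TargetU2) (N : ℕ) (hN : 1 ≤ N) :
    koebeRadiusClass N = 1 / (4 * Real.cos (Real.pi / ((N : ℝ) + 2)) ^ 2) ∧
    IsLeast {r : ℝ | ∃ p : ℝ[X], Adm N p ∧ r = koebeRadius p}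
      (1 / (4 * Real.cos (Real.pi / ((N : ℝ) + 2)) ^ 2)) ∧
    ∀ p : ℝ[X], Adm N p →
      ball (0 : ℂ) (1 / (4 * Real.cos (Real.pi / ((N : ℝ) + 2)) ^ 2)) ⊆ ev p '' ball 0 1 := by
  obtain ⟨h1, h2⟩ := main_of_U2 hU2 N hN
  refine ⟨h2, h1, fun p hp => ?_⟩
  exact ball_subset_image hp (fun z hz => lower_adm hN hp z hz)

end Pool.Agent.H85.KP
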