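import Pool.Agent.H85.KP.A2c
import Pool.Agent.H48.KP.M2
import Pool.Agent.H69.KP.M1
import Pool.Agent.H72.KP.Fin5
import Pool.Agent.H74.KP.M5
import Pool.Agent.H97.KP.M7
import Pool.Agent.H34.KPArea

/-!
# The lower bound: `R_N ≤ |p(e^{it})|` for good polynomials
-/

namespace Pool.Agent.H85.KP

open Polynomial Set Filter Topology Metric
open Complex (I)

/-! ### The collected modules -/

theorem hTR : TargetTR := Pool.Agent.H74.KP.targetTR
theorem hLast : TargetLast := Pool.Agent.H74.KP.targetLast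
theorem hTN : TargetTN := Pool.Agent.H69.KP.TN
theorem hTN2 : TargetTN2 := Pool.Agent.H69.KP.TN2
theorem hArea : TargetArea := Pool.Agent.H34.KPArea.target_area
theorem hAr : TargetAr := Pool.Agent.H74.KP.targetAr hArea

/-- the reflected polynomial `-p(-z)` -/
noncomputable def flip (p : ℝ[X]) : ℝ[X] := -(p.comp (-X))

lemma ev_flip (p : ℝ[X]) (z : ℂ) : ev (flip p) z = -ev p (-z) := by
  unfold flip
  rw [ev_neg, ev_comp]
  simp

lemma Good.flip {N : ℕ} {p : ℝ[X]} (h : Good N p) : Good N (flip p) := by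
  obtain ⟨h1, h2, h3, ρ, hρ, hinj⟩ := h
  refine ⟨?_, ?_, ?_, ρ, hρ, ?_⟩
  · unfold KP.flip
    rw [natDegree_neg, natDegree_comp, natDegree_neg, natDegree_X, mul_one]
    exact h1
  · unfold KP.flip
    rw [coeff_neg, coeff_zero_eq_eval_zero, eval_comp]
    simp only [eval_neg, eval_X, neg_zero]
    rw [← coeff_zero_eq_eval_zero, h2]; simp
  · have e : (KP.flip p).coeff 1 = (derivative (KP.flip p)).eval 0 := by
      rw [← coeff_zero_eq_eval_zero, coeff_derivative]; simp
    rw [e]
    unfold KP.flip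
    rw [derivative_neg, derivative_comp]
    simp only [derivative_neg, derivative_X, eval_neg, eval_mul, eval_comp, eval_X, eval_one,
      neg_zero]
    rw [← coeff_zero_eq_eval_zero, coeff_derivative, h3]
    simp
  · intro a ha b hb hab
    rw [ev_flip, ev_flip] at hab
    have h4 := neg_injective hab
    have hm : ∀ c ∈ ball (0 : ℂ) ρ, -c ∈ ball (0 : ℂ) ρ := by
      intro c hc
      rw [mem_ball_zero_iff] at hc ⊢
      rwa [norm_neg]
    exact neg_injective (hinj (hm a ha) (hm b hb) h4)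

lemma lev3_of_ar {b k r3 r5 : ℝ} (hk : 0 ≤ k)
    (h : b ^ 2 + 3 * r3 ^ 2 + 5 * r5 ^ 2 + k * (1 + 3 * b ^ 2 + 5 * (b ^ 2 - r3) ^ 2
      + 7 * (b ^ 3 - 2 * b * r3 + r5) ^ 2) ≤ 1) :
    b ^ 2 + k * (1 + 3 * b ^ 2 + 5 * b ^ 4 / (1 + 5 / 3 * k)) ≤ 1 := by
  have hpos : 0 < 1 + 5 / 3 * k := by positivity
  have key : k * (5 * b ^ 4 / (1 + 5 / 3 * k)) ≤ 3 * r3 ^ 2 + 5 * k * (b ^ 2 - r3) ^ 2 := by
    rw [← mul_div_assoc, div_le_iff₀ hpos]
    nlinarith [sq_nonneg (3 * r3 - 5 * k * (b ^ 2 - r3))]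
  have h1 : 0 ≤ k * (7 * (b ^ 3 - 2 * b * r3 + r5) ^ 2) := by positivity
  nlinarith [sq_nonneg r5]

lemma RN_pos (N : ℕ) (hN : 1 ≤ N) : 0 < RN N := by
  unfold RN
  have hN' : (1:ℝ) ≤ N := by exact_mod_cast hN
  have : 0 < Real.cos (Real.pi / ((N : ℝ) + 2)) := by
    apply Real.cos_pos_of_mem_Ioo
    have hpi := Real.pi_pos
    constructor
    · have : 0 < Real.pi / ((N : ℝ) + 2) := by positivity
      linarith
    · apply div_lt_div_of_pos_left hpi (by norm_num) (by linarith)
  positivity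

lemma one_div_RN (N : ℕ) : 1 / RN N = 2 + 2 * Real.cos (2 * Real.pi / ((N : ℝ) + 2)) := by
  unfold RN
  rw [one_div_one_div, Real.cos_sq]
  rw [show 2 * (Real.pi / ((N : ℝ) + 2)) = 2 * Real.pi / ((N : ℝ) + 2) by ring]
  ring

theorem lower_core (N : ℕ) (p : ℝ[X]) (hN : 4 ≤ N) (hG : Good N p) (t0 : ℝ)
    (ht0 : t0 ∈ Icc 0 Real.pi) (hmin : ∀ t, ‖ev p (pt t0)‖ ≤ ‖ev p (pt t)‖)
    (hre : (ev p (pt t0)).re ≤ 0) : RN N ≤ ‖ev p (pt t0)‖ := by
  by_contra hcon
  push Not at hcon
  set r := ‖ev p (pt t0)‖ with hr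
  have hm1 := Pool.Agent.H48.KP.nfreal hTR hTN N p (by omega) hG
  have hp1 : RN N ≤ (ev p 1).re := by
    have := Pool.Agent.H48.KP.nfreal hTR hTN N (flip p) (by omega) hG.flip
    rw [ev_flip, neg_neg, Complex.neg_re, neg_neg] at this
    exact this
  have ht00 : t0 ≠ 0 := by
    intro h
    rw [h, pt_zero] at hr
    have := Complex.re_le_norm (ev p 1)
    linarith
  have ht0π : t0 ≠ Real.pi := by
    intro h
    rw [h, pt_pi] at hr
    have := (abs_le.1 (Complex.abs_re_le_norm (ev p (-1)))).1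
    linarith
  have ht0' : t0 ∈ Ioo 0 Real.pi := ⟨lt_of_le_of_ne ht0.1 ht00.symm, lt_of_le_of_ne ht0.2 ht0π⟩
  have him := hTR N p hG t0 ht0'
  set w := ev p (pt t0) with hw
  have hwne : w ≠ 0 := by intro h; rw [h] at him; simp at him
  have hr0 : 0 < r := norm_pos_iff.2 hwne
  have hwr : w.re ^ 2 + w.im ^ 2 = r ^ 2 := by
    rw [hr, Complex.sq_norm, Complex.normSq_apply]; ring
  set β := Real.arccos (-w.re / r) with hβ
  have hx0 : 0 ≤ -w.re / r := div_nonneg (by linarith) hr0.le
  have hx1 : -w.re / r ≤ 1 := by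
    rw [div_le_one hr0]
    nlinarith [sq_nonneg w.im, him]
  have hcosβ : Real.cos β = -w.re / r := Real.cos_arccos (by linarith) hx1
  have hsinβ : Real.sin β = w.im / r := by
    rw [hβ, Real.sin_arccos]
    have e : 1 - (-w.re / r) ^ 2 = (w.im / r) ^ 2 := by
      field_simp
      linarith
    rw [e, Real.sqrt_sq (by positivity)]
  have hβ2 : β ≤ Real.pi / 2 := Real.arccos_le_pi_div_two.2 hx0
  have hβ0 : 0 < β := by
    have h1 : 0 ≤ β := Real.arccos_nonneg _
    rcases eq_or_lt_of_le h1 with h | h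
    · exfalso
      rw [← h, Real.sin_zero] at hsinβ
      have : 0 < w.im / r := by positivity
      linarith
    · exact h
  set ε := Real.pi - t0 with hε
  have hε0 : 0 < ε := by rw [hε]; linarith [ht0'.2]
  have hεπ : ε < Real.pi := by rw [hε]; linarith [ht0'.1]
  have hπε : Real.pi - ε = t0 := by rw [hε]; ring
  have hwre : (ev p (pt (Real.pi - ε))).re = -(r * Real.cos β) := by
    rw [hπε, hcosβ, ← hw]; field_simp
  have hwim : (ev p (pt (Real.pi - ε))).im = r * Real.sin β := by
    rw [hπε, hsinβ, ← hw]; field_simp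
  have hA2 := targetA2 N p r β ε hG hr0 hβ0 hβ2 hε0 hεπ hmin hwre hwim (by linarith)
  set q := 1 / r with hq
  have hq0 : 0 < q := by positivity
  have hqr : q * r = 1 := by rw [hq]; field_simp
  have hqT : 2 + 2 * Real.cos (2 * Real.pi / ((N : ℝ) + 2)) ≤ q := by
    rw [← one_div_RN]
    exact one_div_le_one_div_of_le hr0 hcon.le
  have ha2 := Pool.Agent.H48.KP.coef2 hTR hTN2 N p (by omega) hG
  obtain ⟨hdeg, c0, c1, ρ, hρ, hinj⟩ := id hG
  have hAr' := hAr p (q * Real.cos β) (q * Real.sin β) c0 c1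
    (hinj.mono (ball_subset_ball hρ.le))
    (Or.inr (by
      have : 0 < Real.sin β := by rw [hsinβ]; positivity
      positivity))
    (by
      intro z hz h
      -- then `p z = w`
      have h1 : ev p z = ev p (pt t0) := by
        have h2 : (((q * Real.cos β : ℝ) : ℂ) + ((q * Real.sin β : ℝ) : ℂ) * I) * w = -1 := by
          apply Complex.ext
          · rw [hπε, ← hw] at hwre hwim
            simp only [Complex.mul_re, Complex.add_re, Complex.ofReal_re, Complex.ofReal_im,
              Complex.I_re, Complex.I_im, Complex.mul_im, Complex.add_im, Complex.neg_re,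
              Complex.one_re, hwre, hwim]
            have := Real.sin_sq_add_cos_sq β
            linear_combination (-(q * r)) * this - hqr
          · rw [hπε, ← hw] at hwre hwim
            simp only [Complex.mul_re, Complex.add_re, Complex.ofReal_re, Complex.ofReal_im,
              Complex.I_re, Complex.I_im, Complex.mul_im, Complex.add_im, Complex.neg_im,
              Complex.one_im, hwre, hwim]
            ring
        have h3 : (((q * Real.cos β : ℝ) : ℂ) + ((q * Real.sin β : ℝ) : ℂ) * I) ≠ 0 := by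
          intro h0; rw [h0, zero_mul] at h2; norm_num at h2
        apply mul_right_cancel₀ h3
        rw [h, ← h2]; ring
      have h4 := hinj (ball_subset_ball hρ.le hz) (show pt t0 ∈ ball (0:ℂ) ρ by
        rw [mem_ball_zero_iff, norm_pt]; exact hρ) h1
      rw [mem_ball_zero_iff, h4, norm_pt] at hz
      exact lt_irrefl _ hz)
  have hsqe : (q * Real.sin β) ^ 2 / 4 = (q * Real.sin β) ^ 2 / 4 := rfl
  have hLev : Lev3 q β (p.coeff 2) := by
    obtain ⟨r3, r5, h⟩ := hAr'
    exact lev3_of_ar (by positivity) h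
  rcases Nat.lt_or_ge N 6 with hN6 | hN6
  · interval_cases N
    · -- N = 4
      have hT : (3 : ℝ) ≤ q := by
        have e : 2 * Real.pi / (((4 : ℕ) : ℝ) + 2) = Real.pi / 3 := by push_cast; ring
        rw [e, Real.cos_pi_div_three] at hqT
        linarith
      have ha : p.coeff 2 ≤ 2 * Real.cos (2 * Real.pi / 7) := by
        have e : (((4 : ℕ) : ℝ) + 3) = 7 := by norm_num
        rw [e] at ha2; exact ha2
      have hfin := Pool.Agent.H72.KP.fin4 q β (p.coeff 2) ε hT hβ0.le hβ2 ha hLev hA2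
      have hε6 : ε ≤ 0.6 := by
        by_contra h
        push Not at h
        have := Real.cos_lt_cos_of_nonneg_of_le_pi (by norm_num : (0:ℝ) ≤ 0.6) hεπ.le h
        linarith
      have := Pool.Agent.H48.KP.nf4 hTR hTN p hG ε hε0 hε6
      rw [hπε] at this
      linarith
    · -- N = 5
      have hT : 2 + 2 * Real.cos (2 * Real.pi / 7) ≤ q := by
        have e : (((5 : ℕ) : ℝ) + 2) = 7 := by norm_num
        rw [e] at hqT; exact hqT
      have ha := Pool.Agent.H48.KP.coef25 hTR hLast hTN2 p hG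
      obtain ⟨hfin1, hfin2⟩ := Pool.Agent.H72.KP.fin5 q β (p.coeff 2) ε hT hβ0.le hβ2 ha hAr' hA2
      have hε6 : ε ≤ 0.43 := by
        by_contra h
        push Not at h
        have := Real.cos_lt_cos_of_nonneg_of_le_pi (by norm_num : (0:ℝ) ≤ 0.43) hεπ.le h
        linarith
      rcases le_or_gt ε 0.35 with h35 | h35
      · have := Pool.Agent.H48.KP.nf5a hTR hTN p hG ε hε0 h35
        rw [hπε] at this
        linarith
      · have := Pool.Agent.H48.KP.nf5b hTR hTN p r β ε hG h35.le hε6 hβ0.le hfin1 hr0 hwre hwim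
        linarith
  · -- N ≥ 6
    have hn : 8 ≤ N + 2 := by omega
    have e1 : (((N + 2 : ℕ)) : ℝ) = (N : ℝ) + 2 := by push_cast; ring
    have hfin := Pool.Agent.H72.KP.fin (N + 2) q β (p.coeff 2) ε hn (by rw [e1]; exact hqT) hβ0.le hβ2
      (by
        have e2 : (((N + 2 : ℕ)) : ℝ) + 1 = (N : ℝ) + 3 := by push_cast; ring
        rw [e2]; exact ha2) hLev hA2
    have hNpos : (0:ℝ) < N := by exact_mod_cast (show 0 < N by omega)
    have hpi := Real.pi_pos
    rcases Nat.even_or_odd N with hev | hodd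
    · have h1 := hfin.1 (by
        rw [Nat.even_add]; simp [hev])
      rw [e1] at h1
      have hε1 : ε ≤ Real.pi / ((N : ℝ) + 2) := by
        by_contra h
        push Not at h
        have := Real.cos_lt_cos_of_nonneg_of_le_pi
          (show 0 ≤ Real.pi / ((N : ℝ) + 2) by positivity) hεπ.le h
        linarith
      have := Pool.Agent.H48.KP.nfeven hTR hTN N p (by omega) hev hG ε hε0 hε1
      rw [hπε] at this
      linarith
    · have h1 := hfin.2 (by
        rw [Nat.odd_add]; simp [hodd])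
      have e2 : (((N + 2 : ℕ)) : ℝ) + 1 = (N : ℝ) + 3 := by push_cast; ring
      rw [e2] at h1
      have hε1 : ε ≤ Real.pi / ((N : ℝ) + 3) := by
        by_contra h
        push Not at h
        have := Real.cos_lt_cos_of_nonneg_of_le_pi
          (show 0 ≤ Real.pi / ((N : ℝ) + 3) by positivity) hεπ.le h
        linarith
      have hN7 : 7 ≤ N := by
        rcases hodd with ⟨k, hk⟩
        omega
      have := Pool.Agent.H48.KP.nfodd hTR hTN N p hN7 hodd hG ε hε0 hε1
      rw [hπε] at this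
      linarith

end Pool.Agent.H85.KP
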