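import Pool.Agent.H85.KP.Basic

/-!
# The Koebe radius in terms of the boundary values
-/

namespace Pool.Agent.H85.KP

open Polynomial Set Filter Topology Metric
open Complex (I)

variable {p : ℝ[X]}

/-- the image of a ball is open -/
lemma isOpen_image {N : ℕ} {p : ℝ[X]} (h : Adm N p) {s : ℝ} (hs0 : 0 < s) (hs : s ≤ 1) :
    IsOpen (ev p '' ball 0 s) := by
  have ha : AnalyticOnNhd ℂ (ev p) (ball 0 s) := fun z _ =>
    (differentiable_ev p).analyticAt z
  rcases ha.is_constant_or_isOpen (convex_ball 0 s).isPreconnected with hc | ho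
  · exfalso
    obtain ⟨w, hw⟩ := hc
    have h1 : (0 : ℂ) ∈ ball (0 : ℂ) s := mem_ball_self hs0
    have h2 : ((s / 2 : ℝ) : ℂ) ∈ ball (0 : ℂ) s := by
      rw [mem_ball_zero_iff, Complex.norm_real, Real.norm_eq_abs, abs_of_pos (by positivity)]
      linarith
    have h3 := h.inj (ball_subset_ball hs h1) (ball_subset_ball hs h2)
      ((hw _ h1).trans (hw _ h2).symm)
    have h4 : (s / 2 : ℝ) = 0 := by exact_mod_cast h3.symm
    linarith
  · exact ho _ le_rfl isOpen_ball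

lemma frontier_subset {N : ℕ} (h : Adm N p) {w : ℂ} (hw : w ∈ frontier (ev p '' ball 0 1)) :
    ∃ z : ℂ, ‖z‖ = 1 ∧ ev p z = w := by
  have hopen := isOpen_image h one_pos le_rfl
  have h1 : closure (ev p '' ball 0 1) ⊆ ev p '' closedBall 0 1 := by
    apply closure_minimal (image_mono ball_subset_closedBall)
    exact ((isCompact_closedBall (0:ℂ) 1).image (continuous_ev p)).isClosed
  obtain ⟨z, hz, hzw⟩ := h1 hw.1
  refine ⟨z, ?_, hzw⟩
  rcases lt_or_eq_of_le (mem_closedBall_zero_iff.1 hz) with h2 | h2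
  · exfalso
    apply hw.2
    rw [hopen.interior_eq]
    exact ⟨z, mem_ball_zero_iff.2 h2, hzw⟩
  · exact h2

lemma mem_frontier {N : ℕ} (h : Adm N p) {ζ : ℂ} (hζ : ‖ζ‖ = 1) :
    ev p ζ ∈ frontier (ev p '' ball 0 1) := by
  have hopen := isOpen_image h one_pos le_rfl
  have hζcl : ζ ∈ closure (ball (0 : ℂ) 1) := by
    rw [closure_ball _ one_ne_zero, mem_closedBall_zero_iff, hζ]
  refine ⟨?_, ?_⟩
  · exact (image_closure_subset_closure_image (continuous_ev p)) ⟨ζ, hζcl, rfl⟩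
  · rw [hopen.interior_eq]
    rintro ⟨z0, hz0, hz0e⟩
    rw [mem_ball_zero_iff] at hz0
    obtain ⟨s, hs1, hs2⟩ := exists_between hz0
    have hs0 : 0 < s := lt_of_le_of_lt (norm_nonneg _) hs1
    have hV := isOpen_image h hs0 hs2.le
    have hmem : ev p ζ ∈ ev p '' ball 0 s := ⟨z0, mem_ball_zero_iff.2 hs1, hz0e⟩
    have hev : ∀ᶠ x in 𝓝[ball (0:ℂ) 1] ζ, ev p x ∈ ev p '' ball 0 s :=
      ((continuous_ev p).continuousAt.eventually (hV.mem_nhds hmem)).filter_mono nhdsWithin_le_nhds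
    have hev2 : ∀ᶠ x in 𝓝[ball (0:ℂ) 1] ζ, s < ‖x‖ := by
      have : ∀ᶠ x in 𝓝 ζ, s < ‖x‖ :=
        continuous_norm.continuousAt.eventually (lt_mem_nhds (by simp only [hζ]; exact hs2))
      exact this.filter_mono nhdsWithin_le_nhds
    have hne : (𝓝[ball (0:ℂ) 1] ζ).NeBot := mem_closure_iff_nhdsWithin_neBot.1 hζcl
    obtain ⟨x, ⟨hx1, hx2⟩, hx3⟩ := ((hev.and hev2).and self_mem_nhdsWithin).exists
    obtain ⟨y, hy, hyx⟩ := hx1
    have := h.inj (ball_subset_ball hs2.le hy) hx3 hyx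
    rw [this, mem_ball_zero_iff] at hy
    exact lt_irrefl _ (hx2.trans hy)

lemma koebeRadius_le {N : ℕ} (h : Adm N p) {ζ : ℂ} (hζ : ‖ζ‖ = 1) : koebeRadius p ≤ ‖ev p ζ‖ := by
  have := infDist_le_dist_of_mem (x := (0 : ℂ)) (mem_frontier h hζ)
  rwa [dist_zero_left] at this

lemma le_koebeRadius {N : ℕ} (h : Adm N p) {R : ℝ} (hR : ∀ z : ℂ, ‖z‖ = 1 → R ≤ ‖ev p z‖) :
    R ≤ koebeRadius p := by
  have hne : (frontier (ev p '' ball 0 1)).Nonempty := ⟨_, mem_frontier h (norm_one (α := ℂ))⟩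
  unfold koebeRadius
  rw [le_infDist hne]
  intro w hw
  obtain ⟨z, hz, rfl⟩ := frontier_subset h hw
  rw [dist_zero_left]
  exact hR z hz

end Pool.Agent.H85.KP
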