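import Pool.Agent.H85.KP.Lower
import Pool.Agent.H85.KP.Radius

/-!
# The lower bound for all admissible polynomials
-/

namespace Pool.Agent.H85.KP

open Polynomial Set Filter Topology Metric
open Complex (I)

lemma RN_one : RN 1 = 1 := by
  unfold RN
  have e : (((1 : ℕ) : ℝ) + 2) = 3 := by norm_num
  rw [e, Real.cos_pi_div_three]
  norm_num

lemma good_one {p : ℝ[X]} (h : Good 1 p) (z : ℂ) : ev p z = z := by
  rw [ev_eq_sum_of_le h.1]
  simp [Finset.sum_range_succ, h.2.1, h.2.2.1]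

/-- reduction to the closed second quadrant -/
theorem targetLower : TargetLower := by
  intro N p hN hG t
  rcases Nat.lt_or_ge N 4 with h4 | h4
  · interval_cases N
    · rw [RN_one, good_one hG, norm_pt]
    · exact Pool.Agent.H97.KP.small2 hLast p hG t
    · exact Pool.Agent.H97.KP.small3 hTR hLast p hG t
  -- the minimum on the circle
  obtain ⟨z1, hz1, hmin1⟩ := (isCompact_sphere (0:ℂ) 1).exists_isMinOn
    (NormedSpace.sphere_nonempty.2 zero_le_one) ((continuous_ev p).norm.continuousOn)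
  have hz1n : ‖z1‖ = 1 := by simpa using hz1
  have hmin : ∀ s, ‖ev p z1‖ ≤ ‖ev p (pt s)‖ := by
    intro s
    exact hmin1 (show pt s ∈ sphere (0:ℂ) 1 by simp)
  refine le_trans ?_ (hmin t)
  obtain ⟨t1, ht1, ht1e⟩ := exists_pt_of_norm hz1n
  -- conjugation
  obtain ⟨t2, ht2, ht2e⟩ : ∃ t2 ∈ Icc 0 Real.pi, ‖ev p (pt t2)‖ = ‖ev p z1‖ := by
    rcases le_or_gt 0 t1 with h | h
    · exact ⟨t1, ⟨h, ht1.2⟩, by rw [ht1e]⟩
    · refine ⟨-t1, ⟨by linarith, by linarith [ht1.1]⟩, ?_⟩
      rw [← pt_conj, ev_conj, Complex.norm_conj, ht1e]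
  rw [← ht2e] at hmin ⊢
  rcases le_or_gt (ev p (pt t2)).re 0 with hre | hre
  · exact lower_core N p h4 hG t2 ht2 hmin hre
  · -- flip
    have hpt : ∀ s, pt (Real.pi - s) = -(starRingEnd ℂ (pt s)) := by
      intro s
      apply Complex.ext <;> simp
    have hfl : ∀ s, ‖ev (flip p) (pt (Real.pi - s))‖ = ‖ev p (pt s)‖ := by
      intro s
      rw [ev_flip, hpt, neg_neg, ev_conj, norm_neg, Complex.norm_conj]
    have h := lower_core N (flip p) h4 hG.flip (Real.pi - t2) ⟨by linarith [ht2.2], by linarith [ht2.1]⟩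
      (by
        intro s
        have h1 := hfl (Real.pi - s)
        rw [show Real.pi - (Real.pi - s) = s by ring] at h1
        rw [hfl, h1]
        exact hmin _)
      (by
        rw [ev_flip, hpt, neg_neg, ev_conj, Complex.neg_re, Complex.conj_re]
        linarith)
    rw [hfl] at h
    exact h

/-- dilation -/
noncomputable def dil (s : ℝ) (p : ℝ[X]) : ℝ[X] := C (1 / s) * p.comp (C s * X)

lemma ev_dil (s : ℝ) (p : ℝ[X]) (z : ℂ) : ev (dil s p) z = (1 / s : ℂ) * ev p (s * z) := by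
  unfold dil
  rw [ev_mul, ev_C, ev_comp, ev_mul, ev_C, ev_X]
  push_cast
  ring

lemma good_dil {N : ℕ} {p : ℝ[X]} (h : Adm N p) {s : ℝ} (hs0 : 0 < s) (hs1 : s < 1) :
    Good N (dil s p) := by
  refine ⟨?_, ?_, ?_, 1 / s, ?_, ?_⟩
  · unfold dil
    refine (natDegree_C_mul_le _ _).trans ?_
    rw [natDegree_comp]
    have : (C s * X : ℝ[X]).natDegree ≤ 1 := (natDegree_C_mul_le _ _).trans natDegree_X_le
    calc p.natDegree * (C s * X : ℝ[X]).natDegree ≤ p.natDegree * 1 := Nat.mul_le_mul_left _ this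
      _ = N := by rw [mul_one, h.natDegree_eq]
  · unfold dil
    rw [coeff_C_mul, coeff_zero_eq_eval_zero, eval_comp]
    simp only [eval_mul, eval_C, eval_X, mul_zero]
    rw [← coeff_zero_eq_eval_zero, h.coeff_zero, mul_zero]
  · have e : (p.comp (C s * X)).coeff 1 = (derivative (p.comp (C s * X))).eval 0 := by
      rw [← coeff_zero_eq_eval_zero, coeff_derivative]; simp
    unfold dil
    rw [coeff_C_mul, e, derivative_comp]
    simp only [derivative_mul, derivative_C, derivative_X, zero_mul, zero_add, mul_one, eval_mul,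
      eval_C, eval_comp, eval_X, mul_zero]
    rw [← coeff_zero_eq_eval_zero, coeff_derivative, zero_add, h.coeff_one]
    field_simp
    norm_num
  · rw [lt_div_iff₀ hs0]; linarith
  · intro a ha b hb hab
    rw [ev_dil, ev_dil] at hab
    have hsc : (s : ℂ) ≠ 0 := by exact_mod_cast hs0.ne'
    have h1 : ev p (s * a) = ev p (s * b) := by
      have : (1 / s : ℂ) ≠ 0 := by simp [hsc]
      exact mul_left_cancel₀ this hab
    have hm : ∀ c ∈ ball (0 : ℂ) (1 / s), (s : ℂ) * c ∈ ball (0 : ℂ) 1 := by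
      intro c hc
      rw [mem_ball_zero_iff] at hc ⊢
      rw [norm_mul, Complex.norm_real, Real.norm_eq_abs, abs_of_pos hs0]
      rw [lt_div_iff₀ hs0] at hc
      linarith
    exact mul_left_cancel₀ hsc (h.inj (hm a ha) (hm b hb) h1)

theorem lower_adm {N : ℕ} {p : ℝ[X]} (hN : 1 ≤ N) (h : Adm N p) (z : ℂ) (hz : ‖z‖ = 1) :
    RN N ≤ ‖ev p z‖ := by
  obtain ⟨t, -, rfl⟩ := exists_pt_of_norm hz
  have h1 : ∀ s : ℝ, s ∈ Ioo (0:ℝ) 1 → RN N * s ≤ ‖ev p (s * pt t)‖ := by
    intro s hs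
    have h2 := targetLower N _ hN (good_dil h hs.1 hs.2) t
    rw [ev_dil, norm_mul, norm_div, norm_one, Complex.norm_real, Real.norm_eq_abs,
      abs_of_pos hs.1] at h2
    have hs0 := hs.1
    calc RN N * s ≤ (1 / s * ‖ev p (s * pt t)‖) * s := mul_le_mul_of_nonneg_right h2 hs0.le
      _ = ‖ev p (s * pt t)‖ := by field_simp
  have hc1 : Tendsto (fun s : ℝ => RN N * s) (𝓝[<] 1) (𝓝 (RN N * 1)) := by
    have : Continuous (fun s : ℝ => RN N * s) := by fun_prop
    exact this.continuousAt.tendsto.mono_left nhdsWithin_le_nhds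
  have hc2 : Tendsto (fun s : ℝ => ‖ev p (s * pt t)‖) (𝓝[<] 1) (𝓝 ‖ev p (((1:ℝ) : ℂ) * pt t)‖) := by
    have : Continuous (fun s : ℝ => ‖ev p (s * pt t)‖) :=
      ((continuous_ev p).comp (by fun_prop)).norm
    exact this.continuousAt.tendsto.mono_left nhdsWithin_le_nhds
  have h3 := le_of_tendsto_of_tendsto hc1 hc2 (by
    filter_upwards [Ioo_mem_nhdsLT (show (0:ℝ) < 1 by norm_num)] with s hs
    exact h1 s hs)
  simpa using h3

end Pool.Agent.H85.KP
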