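import Pool.Agent.H85.KP.Lower2
import Pool.Agent.H94.KP.M8
import Pool.Agent.H14.KP.M10

/-!
# The upper bound: the extremal polynomials, and the final theorem
-/

namespace Pool.Agent.H85.KP

open Polynomial Set Filter Topology Metric
open Complex (I)

lemma kap_pos {n : ℕ} (hn : 5 ≤ n) {t : ℝ} (ht : t ∈ Ioo 0 Real.pi) : 0 < kap n t := by
  unfold kap
  have hn' : (5:ℝ) ≤ n := by exact_mod_cast hn
  have hpi := Real.pi_pos
  have h1 : Real.cos (2 * Real.pi / n) < 1 := by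
    have h0 : 0 < 2 * Real.pi / n := by positivity
    have h2 : 2 * Real.pi / n < Real.pi := by
      rw [div_lt_iff₀ (by positivity)]; nlinarith
    rw [← Real.cos_zero]
    exact Real.cos_lt_cos_of_nonneg_of_le_pi le_rfl h2.le h0
  have h2 : 0 < Real.cos (t / 2) :=
    Real.cos_pos_of_mem_Ioo ⟨by linarith [ht.1], by linarith [ht.2]⟩
  have h3 : 0 < Real.sin (t / 2) :=
    Real.sin_pos_of_pos_of_lt_pi (by linarith [ht.1]) (by linarith [ht.2])
  have h4 : 0 < 1 - Real.cos (2 * Real.pi / n) := by linarith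
  positivity

lemma phi_mem {n : ℕ} (hn : 5 ≤ n) : 2 * Real.pi / n ∈ Ioo 0 Real.pi := by
  have hn' : (5:ℝ) ≤ n := by exact_mod_cast hn
  have hpi := Real.pi_pos
  refine ⟨by positivity, ?_⟩
  rw [div_lt_iff₀ (by positivity)]; nlinarith

lemma DD_ne_zero {n : ℕ} (hn : 5 ≤ n) {t : ℝ} (ht : t ∈ Ioo 0 Real.pi) (hne : t ≠ 2 * Real.pi / n) :
    DD n t ≠ 0 := by
  intro h
  unfold DD at h
  have h1 : Real.cos (2 * Real.pi / n) = Real.cos t := by linarith
  have := Real.injOn_cos (x₁ := 2 * Real.pi / n) (x₂ := t) ⟨(phi_mem hn).1.le, (phi_mem hn).2.le⟩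
    ⟨ht.1.le, ht.2.le⟩ h1
  exact hne this.symm

/-- real and imaginary part of the closed form -/
lemma closed_re_im {N : ℕ} (hN : 3 ≤ N) {t : ℝ} (ht : t ∈ Ioo 0 Real.pi) :
    2 * DD (N + 2) t ^ 2 * (ev (extPoly N) (pt t)).re =
      -(DD (N + 2) t - kap (N + 2) t * Real.sin (((N : ℝ) + 2) * t)) ∧
    2 * DD (N + 2) t ^ 2 * (ev (extPoly N) (pt t)).im =
      kap (N + 2) t * (1 - Real.cos (((N : ℝ) + 2) * t)) := by
  have h := Pool.Agent.H94.KP.targetU1 N hN t ht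
  set D := DD (N + 2) t
  set κ := kap (N + 2) t
  set P := ev (extPoly N) (pt t)
  have e : (2 * (D : ℂ) ^ 2 * P) = (((2 * D ^ 2 : ℝ)) : ℂ) * P := by push_cast; ring
  rw [e] at h
  have h1 := congrArg Complex.re h
  have h2 := congrArg Complex.im h
  rw [Complex.re_ofReal_mul] at h1
  rw [Complex.im_ofReal_mul] at h2
  simp only [Complex.neg_re, Complex.neg_im, Complex.sub_re, Complex.sub_im, Complex.mul_re,
    Complex.mul_im, Complex.I_re, Complex.I_im, Complex.ofReal_re, Complex.ofReal_im,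
    Complex.one_re, Complex.one_im, pt_re, pt_im] at h1 h2
  constructor
  · rw [h1]; ring
  · rw [h2]; ring

lemma ext_ne_zero {N : ℕ} (hN : 3 ≤ N) {t : ℝ} (ht : t ∈ Ioo 0 Real.pi) :
    ev (extPoly N) (pt t) ≠ 0 := by
  by_cases hne : t = 2 * Real.pi / ((N + 2 : ℕ) : ℝ)
  · rw [hne]
    have := (Pool.Agent.H94.KP.targetU1b N hN).2.2.2.2
    have e : (((N + 2 : ℕ)) : ℝ) = (N : ℝ) + 2 := by push_cast; ring
    rw [e]; exact this
  · intro h0
    obtain ⟨h1, h2⟩ := closed_re_im hN ht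
    rw [h0] at h1 h2
    simp only [Complex.zero_re, Complex.zero_im, mul_zero] at h1 h2
    have hκ := kap_pos (show 5 ≤ N + 2 by omega) ht
    have hc : Real.cos (((N : ℝ) + 2) * t) = 1 := by
      rcases mul_eq_zero.1 h2.symm with h | h
      · exact absurd h hκ.ne'
      · linarith
    have hs : Real.sin (((N : ℝ) + 2) * t) = 0 := by
      have := Real.sin_sq_add_cos_sq (((N : ℝ) + 2) * t)
      rw [hc] at this
      nlinarith
    rw [hs] at h1
    exact DD_ne_zero (show 5 ≤ N + 2 by omega) ht hne (by linarith)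

lemma continuousOn_inv {N : ℕ} (hN : 3 ≤ N) :
    ContinuousOn (fun t => (-1 / ev (extPoly N) (pt t)).re) (Ioo 0 Real.pi) := by
  apply Complex.continuous_re.comp_continuousOn
  exact continuousOn_const.div ((continuous_ev _).comp continuous_pt).continuousOn
    (fun t ht => ext_ne_zero hN ht)

lemma inv_eq_RR {N : ℕ} (hN : 3 ≤ N) {t : ℝ} (ht : t ∈ Ioo 0 Real.pi)
    (hne : t ≠ 2 * Real.pi / ((N + 2 : ℕ) : ℝ)) :
    (-1 / ev (extPoly N) (pt t)).re = RR (N + 2) t := by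
  obtain ⟨h1, h2⟩ := closed_re_im hN ht
  have hD := DD_ne_zero (show 5 ≤ N + 2 by omega) ht hne
  have hP := ext_ne_zero hN ht
  unfold RR
  have e : (((N + 2 : ℕ)) : ℝ) = (N : ℝ) + 2 := by push_cast; ring
  rw [e]
  set D := DD (N + 2) t
  set κ := kap (N + 2) t
  set P := ev (extPoly N) (pt t)
  set s := Real.sin (((N : ℝ) + 2) * t)
  set c := Real.cos (((N : ℝ) + 2) * t)
  have hsc : s ^ 2 + c ^ 2 = 1 := Real.sin_sq_add_cos_sq _
  have hn : P.re ^ 2 + P.im ^ 2 ≠ 0 := by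
    intro h
    apply hP
    have h3 : P.re = 0 := by nlinarith [sq_nonneg P.re, sq_nonneg P.im]
    have h4 : P.im = 0 := by nlinarith [sq_nonneg P.re, sq_nonneg P.im]
    exact Complex.ext h3 h4
  have hden : D ^ 2 - 2 * κ * D * s + 2 * κ ^ 2 * (1 - c) =
      4 * D ^ 4 * (P.re ^ 2 + P.im ^ 2) := by
    have : 4 * D ^ 4 * (P.re ^ 2 + P.im ^ 2) =
        (2 * D ^ 2 * P.re) ^ 2 + (2 * D ^ 2 * P.im) ^ 2 := by ring
    rw [this, h1, h2]
    linear_combination (-κ ^ 2) * hsc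
  have hlhs : (-1 / P).re = -P.re / (P.re ^ 2 + P.im ^ 2) := by
    rw [Complex.div_re, Complex.normSq_apply]
    simp
    ring
  rw [hlhs, hden]
  have hD4 : D ^ 4 ≠ 0 := pow_ne_zero _ hD
  have h3 : D - κ * s = -(2 * D ^ 2 * P.re) := by linarith
  rw [h3]
  field_simp
  ring

lemma mono_of_U2 (hU2 : TargetU2) {N : ℕ} (hN : 3 ≤ N) :
    MonotoneOn (fun t => (-1 / ev (extPoly N) (pt t)).re) (Ioo 0 Real.pi) := by
  set f := fun t => (-1 / ev (extPoly N) (pt t)).re with hf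
  set φ := 2 * Real.pi / ((N + 2 : ℕ) : ℝ) with hφ
  have hφm : φ ∈ Ioo 0 Real.pi := phi_mem (show 5 ≤ N + 2 by omega)
  obtain ⟨m1, m2⟩ := hU2 (N + 2) (by omega)
  have hc := continuousOn_inv hN
  have f1 : MonotoneOn f (Ioo 0 φ) := by
    intro a ha b hb hab
    have := m1 ha hb hab
    rw [← inv_eq_RR hN ⟨ha.1, ha.2.trans hφm.2⟩ ha.2.ne,
      ← inv_eq_RR hN ⟨hb.1, hb.2.trans hφm.2⟩ hb.2.ne] at this
    exact this
  have f2 : MonotoneOn f (Ioo φ Real.pi) := by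
    intro a ha b hb hab
    have := m2 ha hb hab
    rw [← inv_eq_RR hN ⟨hφm.1.trans ha.1, ha.2⟩ ha.1.ne',
      ← inv_eq_RR hN ⟨hφm.1.trans hb.1, hb.2⟩ hb.1.ne'] at this
    exact this
  -- values at φ
  have hcat : ContinuousAt f φ := hc.continuousAt (isOpen_Ioo.mem_nhds hφm)
  have l1 : ∀ a ∈ Ioo 0 φ, f a ≤ f φ := by
    intro a ha
    have h1 : Tendsto f (𝓝[<] φ) (𝓝 (f φ)) := hcat.tendsto.mono_left nhdsWithin_le_nhds
    refine ge_of_tendsto h1 ?_
    filter_upwards [Ioo_mem_nhdsLT ha.2] with b hb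
    exact f1 ha ⟨ha.1.trans hb.1, hb.2⟩ hb.1.le
  have l2 : ∀ b ∈ Ioo φ Real.pi, f φ ≤ f b := by
    intro b hb
    have h1 : Tendsto f (𝓝[>] φ) (𝓝 (f φ)) := hcat.tendsto.mono_left nhdsWithin_le_nhds
    refine le_of_tendsto h1 ?_
    filter_upwards [Ioo_mem_nhdsGT hb.1] with a ha
    exact f2 ⟨ha.1, ha.2.trans hb.2⟩ hb ha.2.le
  intro a ha b hb hab
  rcases lt_trichotomy a φ with h | h | h
  · rcases lt_trichotomy b φ with h' | h' | h'
    · exact f1 ⟨ha.1, h⟩ ⟨hb.1, h'⟩ hab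
    · rw [h']; exact l1 a ⟨ha.1, h⟩
    · exact (l1 a ⟨ha.1, h⟩).trans (l2 b ⟨h', hb.2⟩)
  · rcases lt_trichotomy b φ with h' | h' | h'
    · linarith
    · rw [h, h']
    · rw [h]; exact l2 b ⟨h', hb.2⟩
  · exact f2 ⟨h, ha.2⟩ ⟨h.trans_le hab, hb.2⟩ hab

lemma TR_ext {N : ℕ} (hN : 3 ≤ N) : TR (extPoly N) := by
  have h1 : ∀ t ∈ Ioo 0 Real.pi, t ≠ 2 * Real.pi / ((N + 2 : ℕ) : ℝ) →
      0 ≤ (ev (extPoly N) (pt t)).im := by
    intro t ht hne
    have hD := DD_ne_zero (show 5 ≤ N + 2 by omega) ht hne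
    have h2 := (closed_re_im hN ht).2
    have hκ := kap_pos (show 5 ≤ N + 2 by omega) ht
    have h3 : 0 ≤ 1 - Real.cos (((N : ℝ) + 2) * t) := by linarith [Real.cos_le_one (((N : ℝ) + 2) * t)]
    by_contra hcon
    push Not at hcon
    have h4 : 2 * DD (N + 2) t ^ 2 * (ev (extPoly N) (pt t)).im < 0 :=
      mul_neg_of_pos_of_neg (by positivity) hcon
    have h5 : 0 ≤ kap (N + 2) t * (1 - Real.cos (((N : ℝ) + 2) * t)) := by positivity
    linarith
  intro t ht
  by_cases hne : t = 2 * Real.pi / ((N + 2 : ℕ) : ℝ)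
  · have hc : Tendsto (fun s => (ev (extPoly N) (pt s)).im) (𝓝[>] t)
        (𝓝 (ev (extPoly N) (pt t)).im) := by
      have : Continuous (fun s => (ev (extPoly N) (pt s)).im) :=
        Complex.continuous_im.comp ((continuous_ev _).comp continuous_pt)
      exact this.continuousAt.tendsto.mono_left nhdsWithin_le_nhds
    refine ge_of_tendsto hc ?_
    filter_upwards [Ioo_mem_nhdsGT ht.2] with s hs
    exact h1 s ⟨ht.1.trans hs.1, hs.2⟩ (by rw [← hne]; exact hs.1.ne')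
  · exact h1 t ht hne

lemma adm_ext (hU2 : TargetU2) {N : ℕ} (hN : 3 ≤ N) : Adm N (extPoly N) := by
  obtain ⟨b1, b2, b3, b4, b5⟩ := Pool.Agent.H94.KP.targetU1b N hN
  exact ⟨b1, b2, b3, Pool.Agent.H14.KP.m10 _ b2 b3 (TR_ext hN) (fun t ht => ext_ne_zero hN ht)
    (mono_of_U2 hU2 hN)⟩

lemma adm_one : Adm 1 X := ⟨natDegree_X, by simp, by simp, by
  intro a _ b _ h
  simpa using h⟩

lemma adm_two : Adm 2 (X + C (1 / 2) * X ^ 2 : ℝ[X]) := by
  refine ⟨?_, ?_, ?_, ?_⟩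
  · compute_degree!
  · simp
  · simp [coeff_X_pow]
  · intro a ha b hb h
    simp only [ev_add, ev_X, ev_mul, ev_C, ev_pow] at h
    have h1 : (a - b) * (1 + (a + b) / 2) = 0 := by
      push_cast at h
      linear_combination h
    rcases mul_eq_zero.1 h1 with h2 | h2
    · exact sub_eq_zero.1 h2
    · exfalso
      have h3 : a + b = -2 := by linear_combination 2 * h2
      have h4 := norm_add_le a b
      rw [h3] at h4
      rw [mem_ball_zero_iff] at ha hb
      norm_num at h4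
      linarith

lemma exists_ext (hU2 : TargetU2) (N : ℕ) (hN : 1 ≤ N) :
    ∃ p : ℝ[X], Adm N p ∧ ev p (-1) = -(RN N : ℂ) := by
  rcases Nat.lt_or_ge N 3 with h | h
  · interval_cases N
    · refine ⟨X, adm_one, ?_⟩
      rw [RN_one]; simp
    · refine ⟨_, adm_two, ?_⟩
      have e : RN 2 = 1 / 2 := by
        unfold RN
        have e : (((2 : ℕ) : ℝ) + 2) = 4 := by norm_num
        rw [e, Real.cos_pi_div_four, div_pow, Real.sq_sqrt (by norm_num)]
        norm_num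
      rw [e]
      simp only [ev_add, ev_X, ev_mul, ev_C, ev_pow]
      push_cast
      norm_num
  · exact ⟨extPoly N, adm_ext hU2 h, (Pool.Agent.H94.KP.targetU1b N h).2.2.2.1⟩

theorem main_of_U2 (hU2 : TargetU2) : TargetMain := by
  intro N hN
  have hleast : IsLeast {r : ℝ | ∃ p : ℝ[X], Adm N p ∧ r = koebeRadius p} (RN N) := by
    constructor
    · obtain ⟨p, hp, hp1⟩ := exists_ext hU2 N hN
      refine ⟨p, hp, le_antisymm ?_ ?_⟩
      · exact le_koebeRadius hp (fun z hz => lower_adm hN hp z hz)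
      · have := koebeRadius_le hp (ζ := -1) (by simp)
        rw [hp1, norm_neg, Complex.norm_real, Real.norm_eq_abs, abs_of_pos (RN_pos N hN)] at this
        exact this
    · rintro r ⟨p, hp, rfl⟩
      exact le_koebeRadius hp (fun z hz => lower_adm hN hp z hz)
  exact ⟨hleast, hleast.csInf_eq⟩

end Pool.Agent.H85.KP
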